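import Mathlib

/-!
# TOT project (captain helper44): Erdos problem 408, iterated totient length

Definitions and the statements of all pieces, as `Prop`-valued definitions.
A piece is delivered as a theorem proving the `Prop`, possibly from other `Prop`s of this file taken as
hypotheses (exactly the ones listed in the offer). Paper proof: /team-store/tot_proof.md.
-/

set_option autoImplicit false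

namespace Pool.Agent.Helper44.TOT

noncomputable section

/-! ## Basic definitions -/

open Classical in
/-- number of primes `q ∈ (y/2, y]` with property `P` -/
def blk (P : ℕ → Prop) (y : ℕ) : ℕ :=
  ((Finset.Ioc (y / 2) y).filter (fun q => q.Prime ∧ P q)).card

/-- `log log x` -/
def ll (x : ℕ) : ℝ := Real.log (Real.log x)

/-- `∑_{q ∣ n} v_q(n) log q · G q` -/
def wsum (G : ℕ → ℝ) (n : ℕ) : ℝ :=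
  ∑ q ∈ n.primeFactors, (n.factorization q : ℝ) * Real.log q * G q

/-- averaging inequality -/
def Avg (G : ℕ → ℝ) : Prop :=
  ∀ p : ℕ, p.Prime → 5 ≤ p → G p * Real.log p ≤ wsum G (p - 1)

/-- the part of `log n` coming from primes `< w` -/
def wlow (w : ℝ) (n : ℕ) : ℝ :=
  ∑ q ∈ n.primeFactors, if (q : ℝ) < w then (n.factorization q : ℝ) * Real.log q else 0

/-- the part of `log n` coming from primes in `E` -/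
def wset (E : Finset ℕ) (n : ℕ) : ℝ :=
  ∑ q ∈ n.primeFactors ∩ E, (n.factorization q : ℝ) * Real.log q

/-- a property of primes of relative density zero in dyadic blocks -/
def Small (P : ℕ → Prop) : Prop :=
  ∀ θ : ℝ, 0 < θ → ∃ X : ℕ, ∀ y : ℕ, X ≤ y → (blk P y : ℝ) ≤ θ * (y / Real.log y)

/-- `up [m₁,…,m_r] n = m₁(m₂(…(m_r n + 1)…)+1)+1` -/
def up : List ℕ → ℕ → ℕ
  | [], n => n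
  | m :: σ, n => m * up σ n + 1

/-- all values `up σ' n`, `σ'` a suffix of `σ` (including `[]`), are prime -/
def CP : List ℕ → ℕ → Prop
  | [], n => n.Prime
  | m :: σ, n => (m * up σ n + 1).Prime ∧ CP σ n

/-- lists of length `r` with entries in `[1, M]` -/
def chains (M : ℕ) : ℕ → Finset (List ℕ)
  | 0 => {[]}
  | r + 1 => ((Finset.Icc 1 M) ×ˢ (chains M r)).image (fun ms => ms.1 :: ms.2)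

open Classical in
/-- the `n` such that `n+1` is the bottom of a prime chain with multipliers `σ` and top in `(x/2, x]` -/
def NS (x : ℕ) (σ : List ℕ) : Finset ℕ :=
  (Finset.Icc 1 x).filter (fun n => CP σ (n + 1) ∧ x / 2 < up σ (n + 1) ∧ up σ (n + 1) ≤ x)

/-! ## Part I: sieve -/

/-- 2.1 Selberg type upper bound sieve -/
def SieveIneq : Prop :=
  ∀ (P : Finset ℕ) (Om : ℕ → Finset ℕ) (z X : ℕ),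
    (∀ l ∈ P, l.Prime) → (∀ l ∈ P, Om l ⊆ Finset.range l) →
    (∀ l ∈ P, 1 ≤ (Om l).card) → (∀ l ∈ P, (Om l).card < l) →
    (((Finset.range X).filter (fun n => ∀ l ∈ P, n % l ∉ Om l)).card : ℝ) *
      (∑ d ∈ (Finset.Icc 1 z).filter (fun d => Squarefree d ∧ d.primeFactors ⊆ P),
        ∏ l ∈ d.primeFactors, ((Om l).card : ℝ) / ((l : ℝ) - ((Om l).card : ℝ)))
      ≤ (X : ℝ) + (z : ℝ) ^ 3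

/-- 2.2 -/
def JGe : Prop :=
  ∀ (P : Finset ℕ) (c : ℕ → ℝ) (z : ℕ), (∀ l ∈ P, l.Prime) → (∀ l ∈ P, 0 ≤ c l ∧ c l < l) →
    ∑ n ∈ (Finset.Icc 1 z).filter (fun n => n.primeFactors ⊆ P),
        ∏ l ∈ n.primeFactors, (c l / l) ^ (n.factorization l)
    ≤ ∑ d ∈ (Finset.Icc 1 z).filter (fun d => Squarefree d ∧ d.primeFactors ⊆ P),
        ∏ l ∈ d.primeFactors, c l / ((l : ℝ) - c l)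

/-- 2.3 -/
def HPow : Prop :=
  ∀ (k Q y z : ℕ), 1 ≤ k → y ^ k ≤ z →
    (∑ n ∈ (Finset.Icc 1 y).filter (fun n => Nat.Coprime n Q), (1 : ℝ) / n) ^ k
    ≤ ∑ n ∈ (Finset.Icc 1 z).filter (fun n => Nat.Coprime n Q),
        ∏ l ∈ n.primeFactors, ((k : ℝ) / l) ^ (n.factorization l)

/-- 2.4 -/
def HLow : Prop :=
  ∀ (Q y : ℕ), 1 ≤ Q →
    ((Q.totient : ℝ) / Q) * Real.log (y + 1) ≤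
      ∑ n ∈ (Finset.Icc 1 y).filter (fun n => Nat.Coprime n Q), (1 : ℝ) / n

/-- 2.5 sieve for pairwise non-proportional affine forms `f.1 * n + f.2` -/
def SieveForms : Prop :=
  ∀ (Fs : Finset (ℕ × ℕ)) (Q X z : ℕ), Fs.Nonempty → 1 ≤ Q → 2 ≤ z →
    (∀ l, l.Prime → l ≤ Fs.card → l ∣ Q) →
    (∀ f ∈ Fs, ∀ l, l.Prime → l ∣ f.1 → l ∣ Q) →
    (∀ f ∈ Fs, ∀ g ∈ Fs, f ≠ g → ∀ l, l.Prime → (f.1 * g.2 ≡ g.1 * f.2 [MOD l]) → l ∣ Q) →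
    ∀ S : Finset ℕ, (∀ n ∈ S, n < X ∧ ∀ f ∈ Fs, ∀ l, l.Prime → l ≤ z → ¬ l ∣ f.1 * n + f.2) →
    (S.card : ℝ) ≤ ((X : ℝ) + (z : ℝ) ^ 3) *
      ((Fs.card : ℝ) * Q / ((Q.totient : ℝ) * Real.log z)) ^ Fs.card

/-- Chebyshev upper bound -/
def Cheb : Prop :=
  ∃ C : ℝ, 1 ≤ C ∧ ∀ y : ℕ, 2 ≤ y → ((Finset.Icc 1 y).filter Nat.Prime).card ≤ C * (y / Real.log y)

/-- 2.6a -/
def RecipPrime : Prop :=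
  ∃ C : ℕ, ∀ T : ℕ, 2 ≤ T →
    ∑ l ∈ (Finset.Icc 1 T).filter Nat.Prime, (1 : ℝ) / l ≤ C * (1 + Real.log (1 + Real.log T))

/-- `∑_{l ≤ T} log l / l ≤ C log T` -/
def LogSum : Prop :=
  ∃ C : ℝ, 1 ≤ C ∧ ∀ T : ℕ, 2 ≤ T →
    ∑ l ∈ (Finset.Icc 1 T).filter Nat.Prime, Real.log l / l ≤ C * Real.log T

/-- 2.6b -/
def TotLow : Prop :=
  ∃ C : ℕ, ∀ D : ℕ, 1 ≤ D →
    (D : ℝ) / D.totient ≤ C * (1 + Real.log (1 + Real.log D)) ^ C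

/-- 2.7 Brun-Titchmarsh type bound -/
def BT : Prop :=
  ∃ C : ℝ, 1 ≤ C ∧ ∀ (a X : ℕ), 1 ≤ a → 2 ≤ X →
    (((Finset.Icc 1 X).filter (fun k => (a * k + 1).Prime)).card : ℝ) ≤
      C * ((a : ℝ) / a.totient) * (X / Real.log X)

/-- 2.8 crude sieve for many forms -/
def PS : Prop :=
  ∀ A : ℕ, ∃ C X0 : ℕ, ∀ x : ℕ, X0 ≤ x → ∀ (Fs : Finset (ℕ × ℕ)) (X : ℕ) (S : Finset ℕ),
    Fs.Nonempty → (Fs.card : ℝ) ≤ (ll x) ^ A →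
    (∀ f ∈ Fs, 1 ≤ f.1 ∧ f.1 ≤ x ^ 2 ∧ f.2 ≤ x ^ 2) →
    (∀ f ∈ Fs, ∀ g ∈ Fs, f ≠ g → f.1 * g.2 ≠ g.1 * f.2) →
    (x : ℝ) ^ ((1 : ℝ) / 20) ≤ X →
    (∀ n ∈ S, n ≤ X ∧ ∀ f ∈ Fs, (f.1 * n + f.2).Prime ∧
      (x : ℝ) ^ ((1 : ℝ) / 60) ≤ ((f.1 * n + f.2 : ℕ) : ℝ)) →
    (S.card : ℝ) ≤ X * ((ll x) ^ C / Real.log x) ^ Fs.card

/-- 2.9 -/
def U3 : Prop :=
  ∃ (C : ℝ) (X0 : ℕ), 0 < C ∧ ∀ (x : ℕ) (N S : Finset ℕ), X0 ≤ x →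
    (∀ l ∈ N, l.Prime ∧ 3 ≤ l ∧ (l : ℝ) ≤ (x : ℝ) ^ ((1 : ℝ) / 40)) →
    (∀ p ∈ S, p.Prime ∧ x / 2 < p ∧ p ≤ x ∧ ∀ l ∈ N, ¬ l ∣ p - 1) →
    (S.card : ℝ) * (1 + ∑ l ∈ N, (1 : ℝ) / l) ≤ C * (x / Real.log x)

/-- `∑_{l ∣ n, l > R} 1/l` -/
def sig (R n : ℕ) : ℝ := ∑ l ∈ n.primeFactors.filter (fun l => R < l), (1 : ℝ) / l

/-- 2.10 -/
def ExpAvg : Prop :=
  ∀ (E : ℝ) (R M : ℕ), 0 ≤ E → 1 ≤ R → 4 * E ≤ R →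
    ∑ n ∈ Finset.Icc 1 M, Real.exp (E * sig R n) ≤ 2 * M

/-- `∏ μ_i * ∏_{i<j} |μ_i - μ_j|` -/
def Del (K : ℕ) (μ : Fin K → ℕ) : ℕ :=
  (∏ i, μ i) * ∏ ij ∈ (Finset.univ : Finset (Fin K × Fin K)).filter (fun ij => ij.1 < ij.2),
    (max (μ ij.1) (μ ij.2) - min (μ ij.1) (μ ij.2))

/-- 2.11 -/
def TupleAvg : Prop :=
  ∀ (K R M : ℕ) (E : ℝ) (S : Finset (Fin K → ℕ)), 1 ≤ K → 0 ≤ E → 1 ≤ R →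
    4 * E * (K * (K + 1) / 2) ≤ R →
    (∀ μ ∈ S, Function.Injective μ ∧ ∀ i, 1 ≤ μ i ∧ μ i ≤ M) →
    ∑ μ ∈ S, Real.exp (E * sig R (Del K μ)) ≤ 4 * (M : ℝ) ^ K

/-- 2.12a pointwise sieve bound for one residue class `b` mod `primorial R` and one tuple `μ` -/
def CL0point : Prop :=
  ∀ (K R a b z X : ℕ) (μ : Fin K → ℕ) (S : Finset ℕ), 1 ≤ K → K + 1 ≤ R → 1 ≤ a → 2 ≤ z →
    (∀ l, l.Prime → l ∣ a → R < l) → z ^ 3 ≤ X → Nat.Coprime b (primorial R) →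
    Function.Injective μ → (∀ i, 1 ≤ μ i) →
    (∀ n ∈ S, n < X ∧ (∀ l, l.Prime → l ≤ z → ¬ l ∣ b + primorial R * n) ∧
      ∀ i, ∀ l, l.Prime → l ≤ z → ¬ l ∣ a * μ i * (b + primorial R * n) + 1) →
    (S.card : ℝ) ≤ 2 * X *
      (((K : ℝ) + 1) * primorial R / ((primorial R).totient * Real.log z)) ^ (K + 1) *
      Real.exp (2 * (K + 1) * (sig R a + sig R (Del K μ)))

/-- 2.12b equidistribution of an interval in residue classes -/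
def ClassCount : Prop :=
  ∀ (a b R M : ℕ), (∀ l, l.Prime → l ∣ a → R < l) → 1 ≤ a → Nat.Coprime b (primorial R) →
    4 * primorial R ≤ M →
    ((((Finset.Ioc (M / 2) M).filter (fun m => Nat.Coprime (a * m * b + 1) (primorial R))).card : ℕ) : ℝ)
      ≤ ((primorial R).totient : ℝ) / primorial R * M

/-- 2.12c Hoelder / falling factorial inequality -/
def HolderFF : Prop :=
  ∀ (E : Finset ℕ) (T : ℕ → ℕ) (K : ℕ), 1 ≤ K →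
    ((∑ q ∈ E, (T q : ℝ)) - 2 * K * E.card) ≤ 0 ∨
    ((∑ q ∈ E, (T q : ℝ)) - 2 * K * E.card) ^ K ≤
      (E.card : ℝ) ^ (K - 1) * 2 ^ K * ∑ q ∈ E, ((T q).descFactorial K : ℝ)

/-- 2.12d moment bound behind CL0 -/
def MomentCL0 : Prop :=
  ∃ C : ℝ, 1 ≤ C ∧ ∀ A : ℕ, ∃ A1 X0 : ℕ, ∀ x : ℕ, X0 ≤ x →
    ∀ (K a M : ℕ) (Y : ℝ) (S : Finset (ℕ × (Fin K → ℕ))),
    1 ≤ K → (K : ℝ) ≤ (ll x) ^ A →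
    (a = 1 ∨ (a.Prime ∧ Real.exp ((ll x) ^ A1) ≤ a)) → Real.exp ((ll x) ^ A1) ≤ M →
    (x : ℝ) ^ ((1 : ℝ) / 4) ≤ Y →
    (∀ t ∈ S, t.1.Prime ∧ (x : ℝ) ^ ((1 : ℝ) / 5) ≤ t.1 ∧ (t.1 : ℝ) ≤ 2 * Y ∧
      Function.Injective t.2 ∧ ∀ i, M / 2 < t.2 i ∧ t.2 i ≤ M ∧ (a * t.2 i * t.1 + 1).Prime) →
    (S.card : ℝ) ≤ C * Y * (M : ℝ) ^ K * (((K : ℝ) + 1) * C / Real.log x) ^ (K + 1)

/-- 2.12 the key bilinear estimate; `C2` does not depend on `A` -/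
def CL0 : Prop :=
  ∃ C2 : ℝ, 1 ≤ C2 ∧ ∀ A : ℕ, ∃ A1 X0 : ℕ, ∀ x : ℕ, X0 ≤ x →
    ∀ (a M : ℕ) (Y μ : ℝ) (E : Finset ℕ) (T : Finset (ℕ × ℕ)),
    (a = 1 ∨ (a.Prime ∧ Real.exp ((ll x) ^ A1) ≤ a)) → Real.exp ((ll x) ^ A1) ≤ M →
    (x : ℝ) ^ ((1 : ℝ) / 4) ≤ Y →
    (∀ q ∈ E, q.Prime ∧ (x : ℝ) ^ ((1 : ℝ) / 5) ≤ q ∧ (q : ℝ) ≤ 2 * Y) →
    Real.exp (-(ll x) ^ A) ≤ μ → (E.card : ℝ) ≤ μ * Y / Real.log x →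
    (∀ t ∈ T, t.1 ∈ E ∧ M / 2 < t.2 ∧ t.2 ≤ M ∧ (a * t.2 * t.1 + 1).Prime) →
    (T.card : ℝ) ≤ C2 * μ * (1 + max 0 (-Real.log μ)) * Y * M / (Real.log x) ^ 2

/-- chain algebra: `up σ n = (σ.prod) * n + up σ 0`, and the slopes of suffixes -/
def ChainAlg : Prop :=
  (∀ (σ : List ℕ) (n : ℕ), up σ n = σ.prod * n + up σ 0) ∧
  (∀ (σ : List ℕ), (∀ m ∈ σ, 1 ≤ m) → up σ 0 ≤ σ.length * σ.prod) ∧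
  (∀ (σ τ₁ τ₂ : List ℕ), (∀ m ∈ σ, 1 ≤ m) → τ₁ ∈ σ.tails → τ₂ ∈ σ.tails → τ₁.length < τ₂.length →
    up τ₁ 0 * τ₂.prod < up τ₂ 0 * τ₁.prod ∧ τ₁.prod + up τ₁ 0 < τ₂.prod + up τ₂ 0 ∧ τ₁.prod ≤ τ₂.prod) ∧
  (∀ (σ : List ℕ) (n : ℕ), CP σ n ↔ ∀ τ ∈ σ.tails, (up τ n).Prime)

/-- 2.13 crude bilinear estimate with chains -/
def CLC : Prop :=
  ∀ A : ℕ, ∃ C X0 : ℕ, ∀ x : ℕ, X0 ≤ x →
    ∀ (σ : List ℕ) (a : ℕ) (Ms : Finset ℕ) (Y μ : ℝ) (E : Finset ℕ) (T : Finset (ℕ × ℕ)),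
    (σ.length : ℝ) ≤ (ll x) ^ A → (∀ m ∈ σ, 1 ≤ m) → 1 ≤ a → (∀ m ∈ Ms, 1 ≤ m) →
    (x : ℝ) ^ ((1 : ℝ) / 4) ≤ Y → Y ≤ x →
    (∀ q ∈ E, q.Prime ∧ (x : ℝ) ^ ((1 : ℝ) / 5) ≤ q ∧ (q : ℝ) ≤ 2 * Y) →
    Real.exp (-(ll x) ^ A) ≤ μ → (E.card : ℝ) ≤ μ * Y / Real.log x →
    (∀ t ∈ T, t.1 ∈ E ∧ t.2 ∈ Ms ∧ CP σ (a * t.2 * t.1 + 1) ∧ up σ (a * t.2 * t.1 + 1) ≤ x) →
    (T.card : ℝ) ≤ μ * (Y / Real.log x) *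
      ((ll x) ^ C + (Ms.card : ℝ) * ((ll x) ^ C / Real.log x) ^ (σ.length + 1))

/-! ## Part II: admissible sets -/

/-- counting properties of a set `N` of integers of size about `X`, with density `D` -/
structure Adm (x A C M1 : ℕ) (N : Finset ℕ) (X D : ℝ) : Prop where
  rng : ∀ n ∈ N, X / 4 < n ∧ (n : ℝ) ≤ X
  divs : ∀ (d : ℕ) (S : Finset ℕ), 1 ≤ d → (d : ℝ) ≤ (x : ℝ) ^ ((9 : ℝ) / 10) → S ⊆ N →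
    (∀ n ∈ S, d ∣ n) → (S.card : ℝ) ≤ D * X / d.totient
  bil : ∀ (a M : ℕ) (μ : ℝ) (E S : Finset ℕ), (a = 1 ∨ (a.Prime ∧ M1 ≤ a)) → M1 ≤ M →
    ((a : ℝ) * M) ≤ (x : ℝ) ^ ((13 : ℝ) / 20) → Real.exp (-(ll x) ^ A) ≤ μ →
    (∀ q ∈ E, q.Prime ∧ X / (4 * (a * M)) < q ∧ (q : ℝ) ≤ 2 * (X / (a * M))) →
    (E.card : ℝ) ≤ μ * (X / (a * M)) / Real.log x → S ⊆ N →
    (∀ n ∈ S, ∃ m q : ℕ, M / 2 < m ∧ m ≤ M ∧ q ∈ E ∧ n = a * m * q) →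
    (S.card : ℝ) ≤ D * μ * (1 + max 0 (-Real.log μ)) * X / (a * Real.log x)
  sml : ∀ (M : ℕ) (μ : ℝ) (Ms E S : Finset ℕ), 1 ≤ M → (M : ℝ) ≤ (x : ℝ) ^ ((3 : ℝ) / 5) →
    (∀ m ∈ Ms, M / 2 < m ∧ m ≤ M) → Real.exp (-(ll x) ^ A) ≤ μ →
    (∀ q ∈ E, q.Prime ∧ X / (4 * M) < q ∧ (q : ℝ) ≤ 2 * (X / M)) →
    (E.card : ℝ) ≤ μ * (X / M) / Real.log x → S ⊆ N →
    (∀ n ∈ S, ∃ m q : ℕ, m ∈ Ms ∧ q ∈ E ∧ n = m * q) →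
    (S.card : ℝ) ≤ μ * (X / (M * Real.log x)) * ((ll x) ^ C + (Ms.card : ℝ) * D * (ll x) ^ C)

/-- chain length zero; `C2` absolute -/
def AdmZero : Prop :=
  ∃ C2 : ℝ, 1 ≤ C2 ∧ ∀ A : ℕ, ∃ C A1 X0 : ℕ, ∀ x M1 : ℕ, X0 ≤ x →
    Real.exp ((ll x) ^ A1) ≤ M1 → Adm x A C M1 (NS x []) x (C2 / Real.log x)

/-- chain length at least one -/
def AdmChain : Prop :=
  ∀ A : ℕ, ∃ C A1 X0 : ℕ, ∀ (x M1 : ℕ) (σ : List ℕ), X0 ≤ x → Real.exp ((ll x) ^ A1) ≤ M1 →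
    σ ≠ [] → (σ.length : ℝ) ≤ (ll x) ^ A → (∀ m ∈ σ, 1 ≤ m) →
    (σ.prod : ℝ) ≤ (x : ℝ) ^ ((1 : ℝ) / 100) →
    Adm x A C M1 (NS x σ) (x / σ.prod) (((ll x) ^ C / Real.log x) ^ (σ.length + 1))

/-- chains: sum of `1/prod`, entries, lengths -/
def ChainSum : Prop :=
  ∀ (M r : ℕ), (∑ σ ∈ chains M r, (1 : ℝ) / (σ.prod : ℕ)) = (∑ m ∈ Finset.Icc 1 M, (1 : ℝ) / m) ^ r ∧
    ∀ σ ∈ chains M r, σ.length = r ∧ (∀ m ∈ σ, 1 ≤ m ∧ m ≤ M) ∧ 1 ≤ σ.prod ∧ σ.prod ≤ M ^ r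

/-- long chains are very rare -/
def LongChain : Prop :=
  ∀ (A A1 : ℕ), ∃ X0 : ℕ, ∀ (x M1 R : ℕ) (S : Finset ℕ), X0 ≤ x → 1 ≤ R → (R : ℝ) ≤ (ll x) ^ A →
    (M1 : ℝ) ≤ Real.exp ((ll x) ^ A1) + 1 →
    (∀ p ∈ S, x / 2 < p ∧ p ≤ x ∧ ∃ σ ∈ chains M1 R, ∃ n, p = up σ (n + 1) ∧ CP σ (n + 1)) →
    (S.card : ℝ) ≤ x * Real.exp (-((R : ℝ) * ll x / 2))

/-! ## Part III: tail property and types -/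

/-- tail property of a level function `b` on the primes below `x` -/
structure Tail (x a : ℕ) (C0 ρ ι uB : ℝ) (b : ℕ → ℝ) : Prop where
  nonneg : ∀ q, 0 ≤ b q
  t1 : ∀ (y : ℕ) (β : ℝ), (x : ℝ) ^ uB ≤ y → y < x → 0 < β →
    (blk (fun q => β ≤ b q) y : ℝ) ≤
      C0 * Real.exp (-(((1 - ι) * (β + ρ * Real.log (Real.log x / Real.log y))) ^ a)) *
        (y / Real.log y)
  t2 : ∀ (y : ℕ) (β : ℝ), (x : ℝ) ^ ((2 : ℝ) / 5) ≤ y → y < x → 0 < β →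
    (blk (fun q => β ≤ b q) y : ℝ) ≤
      C0 * Real.exp (-((β * (Real.log y / Real.log x) ^ ((1 : ℝ) / 25)) ^ a)) * (y / Real.log y)

/-- admissible constants -/
structure Cst (a : ℕ) (C0 ρ ι : ℝ) : Prop where
  ha : 2 ≤ a
  hC0 : 1 ≤ C0
  hρ : 2 ≤ ρ
  hι : 0 < ι
  hι' : ι ≤ 1 / 20

/-- primes in `(Y/4, 2Y]` are covered by three blocks -/
def Cover3 : Prop :=
  ∀ (P : ℕ → Prop) (Y : ℝ) (E : Finset ℕ), 8 ≤ Y →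
    (∀ q ∈ E, q.Prime ∧ P q ∧ Y / 4 < q ∧ (q : ℝ) ≤ 2 * Y) →
    E.card ≤ blk P ⌊2 * Y⌋₊ + blk P (⌊2 * Y⌋₊ / 2) + blk P (⌊2 * Y⌋₊ / 4)

/-- log-masses -/
def LM : Prop :=
  ∀ (a : ℕ) (C0 ρ ι : ℝ), Cst a C0 ρ ι → ∀ A : ℕ, ∃ X0 : ℕ,
    ∀ (x : ℕ) (uB : ℝ) (b : ℕ → ℝ), X0 ≤ x → 1 / (ll x) ^ A ≤ uB → Tail x a C0 ρ ι uB b →
    ∀ (β : ℝ) (S : Finset ℕ), 0 < β →
      ((∀ q ∈ S, q.Prime ∧ (x : ℝ) ^ uB ≤ q ∧ (q : ℝ) ≤ (x : ℝ) ^ ((1 : ℝ) / 2) ∧ β ≤ b q) →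
        ∑ q ∈ S, (1 : ℝ) / q ≤ 16 * C0 * Real.exp (-(((1 - ι) * β) ^ a) - (ρ / 2) ^ a)) ∧
      ((∀ q ∈ S, q.Prime ∧ (x : ℝ) ^ uB ≤ q ∧ (q : ℝ) ≤ (x : ℝ) ^ ((9 : ℝ) / 10) ∧ β ≤ b q) →
        ∑ q ∈ S, (1 : ℝ) / q ≤ 16 * C0 * Real.exp (-(((1 - ι) * β) ^ a)))

/-- 4.T1 smooth part; `C7` absolute -/
def Smooth : Prop :=
  ∃ C7 : ℝ, 1 ≤ C7 ∧ ∀ A : ℕ, ∃ X0 : ℕ, ∀ (x : ℕ) (N : Finset ℕ) (D u η : ℝ) (S : Finset ℕ),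
    X0 ≤ x → 0 ≤ D → (∀ n ∈ N, 1 ≤ n) →
    (∀ (d : ℕ) (S : Finset ℕ), 1 ≤ d → (d : ℝ) ≤ (x : ℝ) ^ ((9 : ℝ) / 10) → S ⊆ N →
      (∀ n ∈ S, d ∣ n) → (S.card : ℝ) ≤ D / d.totient) →
    1 / (ll x) ^ A ≤ u → u ≤ 1 / 40 → u ≤ η → η ≤ 1 / 20 → S ⊆ N →
    (∀ n ∈ S, η * Real.log x < wlow ((x : ℝ) ^ u) n) →
    (S.card : ℝ) ≤ C7 * D * Real.exp (-(η / u))

/-- squares of large primes -/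
def Squares : Prop :=
  ∀ (X w : ℝ) (S : Finset ℕ), 2 ≤ w → 0 ≤ X →
    (∀ n ∈ S, 1 ≤ n ∧ (n : ℝ) ≤ X ∧ ∃ l : ℕ, l.Prime ∧ w ≤ l ∧ l ^ 2 ∣ n) →
    (S.card : ℝ) ≤ 2 * X / w

/-- `exp(-((1-ι)(z-δ))^a - ((1-ι)z/2)^a - (ρ/2)^a)` -/
def Ez (a : ℕ) (ρ ι δ z : ℝ) : ℝ :=
  Real.exp (-(((1 - ι) * (z - δ)) ^ a) - ((1 - ι) * (z / 2)) ^ a - (ρ / 2) ^ a)

/-- common hypotheses of the type lemmas -/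
structure TH (x A A' C M1 : ℕ) (N : Finset ℕ) (X D : ℝ) (a : ℕ) (C0 ρ ι uB : ℝ) (b : ℕ → ℝ)
    (z δ : ℝ) : Prop where
  adm : Adm x A C M1 N X D
  D0 : 0 ≤ D
  Xle : X ≤ x
  leX : (x : ℝ) * Real.exp (-(ll x) ^ A') ≤ X
  huB : 1 / (ll x) ^ A' ≤ uB
  huB' : uB ≤ 1 / 40
  tail : Tail x a C0 ρ ι uB b
  hz : 1 ≤ z
  hzA : ((a : ℝ) + 1) * z ^ a ≤ (ll x) ^ A
  hzA' : ((a : ℝ) + 1) * z ^ a ≤ (ll x) ^ A'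
  hδ : 0 < δ
  hδ' : δ ≤ 1 / (100 * a * (4 * z) ^ a)
  hδA' : 1 / (ll x) ^ A' ≤ δ
  M1ge : Real.exp 1 ≤ M1
  M1le : (M1 : ℝ) ≤ Real.exp ((ll x) ^ A') + 1
  uBM : (M1 : ℝ) ≤ (x : ℝ) ^ uB

def TypeA : Prop :=
  ∀ (a : ℕ) (C0 ρ ι : ℝ), Cst a C0 ρ ι → ∀ A A' C : ℕ, ∃ X0 : ℕ,
    ∀ (x M1 : ℕ) (N : Finset ℕ) (X D uB : ℝ) (b : ℕ → ℝ) (z δ : ℝ) (S : Finset ℕ),
    X0 ≤ x → TH x A A' C M1 N X D a C0 ρ ι uB b z δ → S ⊆ N →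
    (∀ n ∈ S, ∃ l : ℕ, l.Prime ∧ l ∣ n ∧ (x : ℝ) ^ uB ≤ l ∧ (l : ℝ) ≤ (x : ℝ) ^ ((1 : ℝ) / 2) ∧
      7 / 5 * z ≤ b l) →
    (S.card : ℝ) ≤ 32 * D * X * C0 * Real.exp (-((13 / 10 * z) ^ a) - (ρ / 2) ^ a)

def TypeB1 : Prop :=
  ∀ (a : ℕ) (C0 ρ ι : ℝ), Cst a C0 ρ ι → ∀ A A' C : ℕ, ∃ X0 : ℕ,
    ∀ (x M1 : ℕ) (N : Finset ℕ) (X D uB : ℝ) (b : ℕ → ℝ) (z δ : ℝ) (S : Finset ℕ),
    X0 ≤ x → TH x A A' C M1 N X D a C0 ρ ι uB b z δ → S ⊆ N →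
    (∀ n ∈ S, ∃ l1 l2 : ℕ, l1.Prime ∧ l2.Prime ∧ l1 ≠ l2 ∧ l1 ∣ n ∧ l2 ∣ n ∧
      (x : ℝ) ^ uB ≤ l1 ∧ (x : ℝ) ^ uB ≤ l2 ∧ ((l1 : ℝ) * l2) ≤ (x : ℝ) ^ ((9 : ℝ) / 10) ∧
      z - δ ≤ b l1 ∧ z / 2 ≤ b l2) →
    (S.card : ℝ) ≤ 2048 * D * X * C0 ^ 2 * Ez a ρ ι δ z

def TypeB2a : Prop :=
  ∀ (a : ℕ) (C0 ρ ι : ℝ), Cst a C0 ρ ι → ∀ A A' C : ℕ, ∃ X0 : ℕ,
    ∀ (x M1 : ℕ) (N : Finset ℕ) (X D uB : ℝ) (b : ℕ → ℝ) (z δ : ℝ) (S : Finset ℕ),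
    X0 ≤ x → TH x A A' C M1 N X D a C0 ρ ι uB b z δ → S ⊆ N →
    (∀ n ∈ S, ∃ k l q : ℕ, l.Prime ∧ q.Prime ∧ n = l * k * q ∧ M1 < k ∧
      (x : ℝ) ^ uB ≤ l ∧ (l : ℝ) ≤ (x : ℝ) ^ ((1 : ℝ) / 2) ∧
      (x : ℝ) ^ ((9 : ℝ) / 10) < ((l : ℝ) * q) ∧
      ((z - δ ≤ b q ∧ z / 2 ≤ b l) ∨ (z / 2 ≤ b q ∧ z - δ ≤ b l))) →
    (S.card : ℝ) ≤ 100 * D * X * C0 ^ 2 * (1 + z ^ a) * Ez a ρ ι δ z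

def TypeB2b : Prop :=
  ∀ (a : ℕ) (C0 ρ ι : ℝ), Cst a C0 ρ ι → ∀ A A' C : ℕ, ∃ X0 : ℕ,
    ∀ (x M1 : ℕ) (N : Finset ℕ) (X D uB : ℝ) (b : ℕ → ℝ) (z δ : ℝ) (S : Finset ℕ),
    X0 ≤ x → TH x A A' C M1 N X D a C0 ρ ι uB b z δ → S ⊆ N →
    (∀ n ∈ S, ∃ k l q : ℕ, l.Prime ∧ q.Prime ∧ n = k * l * q ∧ k ≤ M1 ∧
      (x : ℝ) ^ uB ≤ l ∧ (l : ℝ) ≤ (x : ℝ) ^ ((1 : ℝ) / 2) ∧
      ((z - δ ≤ b q ∧ z / 2 ≤ b l) ∨ (z / 2 ≤ b q ∧ z - δ ≤ b l))) →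
    (S.card : ℝ) ≤ D * X * C0 ^ 2 * Ez a ρ ι δ z + X * (x : ℝ) ^ (-(uB / 2))

def TypeC : Prop :=
  ∀ (a : ℕ) (C0 ρ ι : ℝ), Cst a C0 ρ ι → ∀ A A' C : ℕ, ∃ X0 : ℕ,
    ∀ (x M1 : ℕ) (N : Finset ℕ) (X D uB : ℝ) (b : ℕ → ℝ) (z δ : ℝ) (S : Finset ℕ),
    X0 ≤ x → TH x A A' C M1 N X D a C0 ρ ι uB b z δ → S ⊆ N →
    (∀ n ∈ S, ∃ m q : ℕ, q.Prime ∧ n = m * q ∧ M1 < m ∧ m * m ≤ x ∧
      z * (1 + (Real.log m / Real.log x) / 2) - 2 * δ ≤ b q) →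
    (S.card : ℝ) ≤ D * X * C0 * Real.exp (-(z ^ a)) * (140 / a)

/-! ## Part IV: one-step proposition -/

/-- deterministic case analysis for one prime `n+1` -/
def CaseAn : Prop :=
  ∀ (x n : ℕ) (G b : ℕ → ℝ) (Λ G1 uB u1 ηB η1 z δ : ℝ),
    (n + 1).Prime → 5 ≤ n + 1 → n + 1 ≤ x → 9 / 10 * Real.log x ≤ Real.log ((n : ℝ) + 1) →
    Avg G → (∀ q : ℕ, q.Prime → G q ≤ Λ) → 0 ≤ Λ → 0 ≤ G1 → (∀ q, 0 ≤ b q) →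
    (∀ q : ℕ, q.Prime → (x : ℝ) ^ u1 ≤ q → G q ≤ b q) →
    (∀ q : ℕ, q.Prime → (x : ℝ) ^ uB ≤ q → G q ≤ b q + G1) →
    1 ≤ z → 0 < δ → δ ≤ 1 / 100 → z - δ / 8 ≤ G (n + 1) →
    wlow ((x : ℝ) ^ uB) n ≤ ηB * Real.log x → wlow ((x : ℝ) ^ u1) n ≤ η1 * Real.log x →
    Λ * ηB ≤ δ / 8 → G1 * η1 ≤ δ / 8 → uB ≤ u1 →
    (∀ l : ℕ, l.Prime → (x : ℝ) ^ uB ≤ l → ¬ l ^ 2 ∣ n) →
    (∃ l : ℕ, l.Prime ∧ l ∣ n ∧ (x : ℝ) ^ uB ≤ l ∧ (l : ℝ) ≤ (x : ℝ) ^ ((1 : ℝ) / 2) ∧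
      7 / 5 * z ≤ b l) ∨
    (∃ l1 l2 : ℕ, l1.Prime ∧ l2.Prime ∧ l1 ≠ l2 ∧ l1 ∣ n ∧ l2 ∣ n ∧
      (x : ℝ) ^ uB ≤ l1 ∧ (x : ℝ) ^ uB ≤ l2 ∧ z - δ ≤ b l1 ∧ z / 2 ≤ b l2) ∨
    (∃ m q : ℕ, q.Prime ∧ n = m * q ∧ m * m ≤ x ∧
      z * (1 + (Real.log m / Real.log x) / 2) - 2 * δ ≤ b q)

/-- decomposition of a prime along its chain of special steps -/
def ChainDec : Prop :=
  ∀ (M1 R p : ℕ), p.Prime → ∃ r ≤ R, ∃ σ ∈ chains M1 r, ∃ n : ℕ,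
    p = up σ (n + 1) ∧ CP σ (n + 1) ∧
      (r = R ∨ ∀ m q : ℕ, q.Prime → n = m * q → M1 < m)

/-- propagation of `G` along a chain -/
def ChainG : Prop :=
  ∀ (G : ℕ → ℝ) (Λ : ℝ) (σ : List ℕ) (n : ℕ), Avg G → (∀ q : ℕ, q.Prime → G q ≤ Λ) → 0 ≤ Λ →
    (∀ m ∈ σ, 1 ≤ m) → 5 ≤ n → CP σ n →
    G (up σ n) * Real.log (up σ n) ≤ G n * Real.log n + Λ * Real.log (σ.prod)

/-- hypotheses on the level function `G` and its majorant `b` -/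
structure GH (x a : ℕ) (C0 ρ ι C6 : ℝ) (G b : ℕ → ℝ) (Λ G1 uB u1 Z δ : ℝ) : Prop where
  avg : Avg G
  le : ∀ q : ℕ, q.Prime → G q ≤ Λ
  hΛ : 1 ≤ Λ
  hG1 : 1 ≤ G1
  hZ : 1 ≤ Z
  u1' : u1 ≤ 1 / 40
  uBu1 : uB ≤ u1
  hδ : δ = 1 / (100 * a * (4 * Z) ^ a)
  hB : uB * (2 * Z ^ a + C6) * (8 * Λ) ≤ δ
  h1 : u1 * (2 * Z ^ a + C6) * (8 * G1) ≤ δ
  b1 : ∀ q : ℕ, q.Prime → (x : ℝ) ^ u1 ≤ q → G q ≤ b q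
  bB : ∀ q : ℕ, q.Prime → (x : ℝ) ^ uB ≤ q → G q ≤ b q + G1
  tail : Tail x a C0 ρ ι uB b

/-- per admissible set: bound for all `n ∈ N` with `G (n+1)` large -/
def PerAdm : Prop :=
  ∀ C1 C2 : ℝ, 1 ≤ C1 → 1 ≤ C2 → ∃ (a : ℕ) (C0 ρ ι C6 : ℝ), Cst a C0 ρ ι ∧ 1 ≤ C6 ∧
    C1 ≤ C0 * Real.exp (-1) ∧
    ∀ A A' C : ℕ, ∃ X0 : ℕ,
    ∀ (x M1 : ℕ) (N : Finset ℕ) (X D uB u1 : ℝ) (G b : ℕ → ℝ) (Λ G1 Z δ z : ℝ) (S : Finset ℕ),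
    X0 ≤ x → GH x a C0 ρ ι C6 G b Λ G1 uB u1 Z δ → z ≤ Z →
    TH x A A' C M1 N X D a C0 ρ ι uB b z δ → S ⊆ N →
    (∀ n ∈ S, (n + 1).Prime ∧ n + 1 ≤ x ∧ z - δ / 8 ≤ G (n + 1) ∧
      ∀ m q : ℕ, q.Prime → n = m * q → M1 < m) →
    (S.card : ℝ) ≤ D * X * C0 * Real.exp (-(z ^ a)) / (4 * C2) + X * (x : ℝ) ^ (-(uB / 4))

/-- one-step proposition -/
def OS : Prop :=
  ∃ (a : ℕ) (C0 ρ ι C6 : ℝ), Cst a C0 ρ ι ∧ 1 ≤ C6 ∧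
    (∀ y : ℕ, 2 ≤ y → (blk (fun _ => True) y : ℝ) ≤ C0 * Real.exp (-1) * (y / Real.log y)) ∧
    ∀ A : ℕ, ∃ X0 : ℕ, ∀ (x : ℕ) (G b : ℕ → ℝ) (Λ G1 uB u1 Z δ : ℝ), X0 ≤ x →
      GH x a C0 ρ ι C6 G b Λ G1 uB u1 Z δ → Λ ≤ (ll x) ^ A → Z ≤ (ll x) ^ A →
      1 / (ll x) ^ A ≤ uB →
      ∀ z : ℝ, 1 ≤ z → z ≤ Z →
        (blk (fun q => z ≤ G q) x : ℝ) ≤ C0 * Real.exp (-(z ^ a)) * (x / Real.log x)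

/-! ## Part V: Theorem P -/

def tt (x0 x : ℕ) : ℝ := Real.log (Real.log x / Real.log x0)
def NN (N0 ε t : ℝ) : ℝ := N0 * (1 + ε * t) ^ 2
def bb (ε t : ℝ) : ℝ := (1 / 2) * (1 - 1 / (1 + ε * t))

/-- induction hypothesis at the block `y` -/
def IH (h : ℕ → ℝ) (x0 : ℕ) (N0 ε C0 : ℝ) (a y : ℕ) : Prop :=
  ∀ z : ℝ, 0 ≤ z →
    (blk (fun q => z ≤ NN N0 ε (tt x0 y) * (h q - bb ε (tt x0 y))) y : ℝ) ≤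
      C0 * Real.exp (-(z ^ a)) * (y / Real.log y)

/-- conversion of levels between scales -/
def Conv : Prop :=
  ∀ (h : ℕ → ℝ) (x0 x y a : ℕ) (N0 ε C0 β : ℝ), 3 ≤ x0 → x0 ≤ y → y < x → 0 < N0 → 0 < ε →
    0 < C0 → IH h x0 N0 ε C0 a y → 0 < β →
    (blk (fun q => β ≤ NN N0 ε (tt x0 x) * (h q - bb ε (tt x0 x))) y : ℝ) ≤
      C0 * Real.exp (-((((1 + ε * tt x0 y) / (1 + ε * tt x0 x)) ^ 2 *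
        (β + N0 * ε / 2 * Real.log (Real.log x / Real.log y))) ^ a)) * (y / Real.log y)

/-- requirements on `N0` (with `ε = 2ρ/N0`) -/
structure Good (a : ℕ) (ρ ι C6 N0 ε : ℝ) : Prop where
  hN0 : 1 ≤ N0
  hε : ε = 2 * ρ / N0
  hε1 : ε ≤ 1 / 100
  hε2 : 2 * (2 * (a : ℝ) + 3) * ε ≤ 1
  lag1 : ∀ t : ℝ, 0 ≤ t → ε * ((2 * (a : ℝ) + 3) * Real.log (NN N0 ε t)) ≤ ι / 2 * (1 + ε * t)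
  near : ∀ t : ℝ, 0 ≤ t → t ≤ (2 * (a : ℝ) + 3) * Real.log (NN N0 ε t) →
    NN N0 ε t + ρ * ((2 * (a : ℝ) + 3) * Real.log (NN N0 ε t)) ≤ 3 * N0
  lag2 : ∀ B : ℝ, 1 ≤ B → ∃ T2 : ℝ, 0 ≤ T2 ∧ ∀ t : ℝ, T2 ≤ t →
    ε * ((2 * (a : ℝ) + 3) * Real.log (NN N0 ε t * B)) ≤ ι / 2 * (1 + ε * t) ∧
    (2 * (a : ℝ) + 3) * Real.log (NN N0 ε t * B) < t
  os : ∀ N B : ℝ, N0 ≤ N → 1 ≤ B →
    (N * B) ^ (-(2 * (a : ℝ) + 3)) * (2 * N ^ a + C6) * (8 * (N * B)) ≤ 1 / (100 * a * (4 * N) ^ a)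
  small : N0 ^ (-(2 * (a : ℝ) + 3)) ≤ 1 / 40

def ParamP : Prop :=
  ∀ (a : ℕ) (C0 ρ ι C6 : ℝ), Cst a C0 ρ ι → 1 ≤ C6 → ∃ N0 ε : ℝ, Good a ρ ι C6 N0 ε

/-- the level function at scale `x` -/
def Gx (h : ℕ → ℝ) (x0 : ℕ) (N0 ε : ℝ) (x : ℕ) (q : ℕ) : ℝ :=
  NN N0 ε (tt x0 x) * (h q - bb ε (tt x0 x))

/-- `Avg` for the level function -/
def AvgGx : Prop :=
  ∀ (h : ℕ → ℝ) (x0 x : ℕ) (N0 ε : ℝ), 3 ≤ x0 → x0 ≤ x → 0 < N0 → 0 < ε → Avg h →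
    Avg (Gx h x0 N0 ε x)

open Classical in
/-- phase one majorant -/
def b1 (h : ℕ → ℝ) (x0 : ℕ) (N0 ε u1 : ℝ) (x : ℕ) (q : ℕ) : ℝ :=
  if (x : ℝ) ^ u1 ≤ q ∨ 1 ≤ h q then max 0 (Gx h x0 N0 ε x q) else 0

/-- phase two majorant -/
def b2 (h : ℕ → ℝ) (x0 : ℕ) (N0 ε : ℝ) (x : ℕ) (q : ℕ) : ℝ := max 0 (Gx h x0 N0 ε x q)

/-- hypotheses on `h`, windows, smallness of `{h ≥ 1}` -/
structure PH (h : ℕ → ℝ) (B : ℝ) (x0 : ℕ) (τ θ0 ε0 : ℝ) : Prop where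
  nonneg : ∀ q, 0 ≤ h q
  le : ∀ q : ℕ, q.Prime → h q ≤ B
  avg : Avg h
  win : ∀ y : ℕ, (x0 : ℝ) ^ τ ≤ y → y ≤ x0 →
    (blk (fun q => 0 < h q) y : ℝ) ≤ θ0 * (y / Real.log y)
  rare : ∀ y : ℕ, (x0 : ℝ) ^ τ ≤ y → (blk (fun q => 1 ≤ h q) y : ℝ) ≤ ε0 * (y / Real.log y)

/-- tail property in phase one (`t ≤ T`) -/
def PhaseOne : Prop :=
  ∀ (a : ℕ) (C0 ρ ι C6 N0 ε : ℝ), Cst a C0 ρ ι → Good a ρ ι C6 N0 ε →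
    ∀ B T : ℝ, 1 ≤ B → 0 ≤ T → ∃ ε0 : ℝ, 0 < ε0 ∧
      ε0 ≤ C0 * Real.exp (-((NN N0 ε T * B) ^ a)) ∧
      ∃ X0 : ℕ, ∀ (h : ℕ → ℝ) (x0 x : ℕ), X0 ≤ x0 → x0 ≤ x → tt x0 x ≤ T →
      PH h B x0 ((N0 * B) ^ (-(2 * (a : ℝ) + 3))) (C0 * Real.exp (-((3 * N0) ^ a))) ε0 →
      (∀ y : ℕ, x0 ≤ y → y < x → IH h x0 N0 ε C0 a y) →
      Tail x a C0 ρ ι ((NN N0 ε (tt x0 x) * B) ^ (-(2 * (a : ℝ) + 3)))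
        (b1 h x0 N0 ε ((NN N0 ε (tt x0 x)) ^ (-(2 * (a : ℝ) + 3))) x)

/-- tail property in phase two -/
def PhaseTwo : Prop :=
  ∀ (a : ℕ) (C0 ρ ι C6 N0 ε : ℝ), Cst a C0 ρ ι → Good a ρ ι C6 N0 ε →
    ∀ B T : ℝ, 1 ≤ B → 0 ≤ T →
      (∀ t : ℝ, T ≤ t → ε * ((2 * (a : ℝ) + 3) * Real.log (NN N0 ε t * B)) ≤ ι / 2 * (1 + ε * t) ∧
        (2 * (a : ℝ) + 3) * Real.log (NN N0 ε t * B) < t) →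
      ∃ X0 : ℕ, ∀ (h : ℕ → ℝ) (x0 x : ℕ), X0 ≤ x0 → x0 ≤ x → T ≤ tt x0 x →
      (∀ y : ℕ, x0 ≤ y → y < x → IH h x0 N0 ε C0 a y) →
      Tail x a C0 ρ ι ((NN N0 ε (tt x0 x) * B) ^ (-(2 * (a : ℝ) + 3))) (b2 h x0 N0 ε x)

/-- main induction -/
def Induct : Prop :=
  ∃ (a : ℕ) (C0 ρ ι C6 N0 ε : ℝ), Cst a C0 ρ ι ∧ Good a ρ ι C6 N0 ε ∧
    ∀ B : ℝ, 1 ≤ B → ∃ (ε0 : ℝ) (X0 : ℕ), 0 < ε0 ∧ ∀ (h : ℕ → ℝ) (x0 : ℕ), X0 ≤ x0 →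
      PH h B x0 ((N0 * B) ^ (-(2 * (a : ℝ) + 3))) (C0 * Real.exp (-((3 * N0) ^ a))) ε0 →
      ∀ x : ℕ, x0 ≤ x → IH h x0 N0 ε C0 a x

/-- Theorem P -/
def TheoremP : Prop :=
  ∃ θ0 : ℝ, 0 < θ0 ∧ ∀ B : ℝ, 1 ≤ B → ∃ (ε0 τ : ℝ) (X0 : ℕ), 0 < ε0 ∧ 0 < τ ∧ τ < 1 ∧
    ∀ (h : ℕ → ℝ) (x0 : ℕ), X0 ≤ x0 → PH h B x0 τ θ0 ε0 → Small (fun q => 3 / 4 ≤ h q)

/-! ## Part VI: windows -/

/-- first moment lemma -/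
def FM : Prop :=
  ∃ C : ℝ, 1 ≤ C ∧ ∀ v1 : ℝ, 0 < v1 → v1 ≤ 1 / 4 → ∃ Y0 : ℕ,
    ∀ (y : ℕ) (E : Finset ℕ) (w : ℝ), Y0 ≤ y → 2 ≤ w → w ≤ (y : ℝ) ^ ((1 : ℝ) / 2) →
    (∀ q ∈ E, q.Prime) →
    ∑ p ∈ (Finset.Ioc (y / 2) y).filter Nat.Prime, wset E (p - 1) ≤
      C * y * (Real.log w / Real.log y + v1 +
        (1 / (v1 * Real.log y)) * ∑ q ∈ E, if w < (q : ℝ) ∧ q ≤ y then Real.log q / q else 0)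

/-- primes `p` such that `p - 1` has a very large prime factor -/
def N5 : Prop :=
  ∃ C : ℝ, 1 ≤ C ∧ ∀ v1 : ℝ, 0 < v1 → v1 ≤ 1 / 4 → ∃ Y0 : ℕ, ∀ (y : ℕ) (S : Finset ℕ), Y0 ≤ y →
    (∀ p ∈ S, p.Prime ∧ y / 2 < p ∧ p ≤ y ∧
      ∃ q : ℕ, q.Prime ∧ q ∣ p - 1 ∧ (y : ℝ) ^ (1 - v1) ≤ q) →
    (S.card : ℝ) ≤ C * v1 * (y / Real.log y)

/-- the completely additive function with `FF 2 = 1`, `FF p = FF (p-1)` -/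
def FF (n : ℕ) : ℕ :=
  (n.primeFactorsList.attach.map
    (fun q => if h : q.1 = 2 then 1 else FF (q.1 - 1))).sum
termination_by n
decreasing_by
  have h1 := Nat.prime_of_mem_primeFactorsList q.2
  have h2 := Nat.le_of_mem_primeFactorsList q.2
  have h3 := h1.one_lt
  omega

/-- `FF q / log q` -/
def gg (q : ℕ) : ℝ := (FF q : ℝ) / Real.log q

def FFprops : Prop :=
  FF 1 = 0 ∧ FF 2 = 1 ∧ (∀ p : ℕ, p.Prime → 3 ≤ p → FF p = FF (p - 1)) ∧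
  (∀ m n : ℕ, 1 ≤ m → 1 ≤ n → FF (m * n) = FF m + FF n) ∧
  (∀ n : ℕ, 1 ≤ n → (FF n : ℝ) ≤ Real.log n / Real.log 2 ∧ Real.log n / Real.log 3 ≤ FF n)

/-- `F (n) = ∑ v_q(n) F(q)` and the two averaging inequalities for `gg` -/
def GGavg : Prop :=
  (∀ n : ℕ, 1 ≤ n → (FF n : ℝ) = wsum gg n) ∧
  (∀ q : ℕ, 2 ≤ q → 0 ≤ gg q ∧ gg q ≤ 3 / 2) ∧
  (∀ t D : ℝ, 0 ≤ t → 0 < D → Avg (fun q => max 0 (gg q - t) / D)) ∧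
  (∀ t D : ℝ, 0 ≤ t → t ≤ 2 → 0 < D → Avg (fun q => max 0 (t - gg q + 1 / Real.log q) / D))

/-- lower edge of the distribution of `gg` -/
structure LowEdge (α : ℝ) : Prop where
  nonneg : 0 ≤ α
  le : α ≤ 3 / 2
  below : ∀ t : ℝ, t < α → Small (fun q => gg q < t)
  above : ∀ t : ℝ, α < t → ¬ Small (fun q => gg q < t)

structure HighEdge (α : ℝ) : Prop where
  nonneg : 0 ≤ α
  le : α ≤ 3 / 2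
  above : ∀ t : ℝ, α < t → Small (fun q => t < gg q)
  below : ∀ t : ℝ, t < α → ¬ Small (fun q => t < gg q)

def ClaimL : Prop :=
  ∃ θ0 : ℝ, 0 < θ0 ∧ ∀ α t : ℝ, LowEdge α → α < t →
    ¬ ∃ X : ℕ, ∀ y : ℕ, X ≤ y → (blk (fun q => gg q < t) y : ℝ) ≤ θ0 * (y / Real.log y)

def W1 : Prop :=
  ∀ α κ η θ : ℝ, LowEdge α → 0 < κ → κ ≤ 1 → 0 < η → 5 * η / κ ≤ 1 / 40 → 0 < θ →
    ∃ X : ℕ, ∀ (x : ℕ) (S : Finset ℕ), X ≤ x →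
      (∀ p ∈ S, p.Prime ∧ x / 2 < p ∧ p ≤ x ∧ gg p < α + η ∧
        ∃ q : ℕ, q.Prime ∧ q ∣ p - 1 ∧ α + κ < gg q ∧ (x : ℝ) ^ (5 * η / κ) < q) →
      (S.card : ℝ) ≤ θ * (x / Real.log x)

/-- windows in which the primes with `gg > α + κ` have small log-mass -/
def W2 : Prop :=
  ∀ α κ ε τ : ℝ, LowEdge α → 0 < κ → κ ≤ 1 → 0 < ε → 0 < τ → τ < 1 → ∀ X : ℕ,
    ∃ Y : ℕ, X ≤ Y ∧ ∀ S : Finset ℕ,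
      (∀ l ∈ S, l.Prime ∧ (Y : ℝ) ^ τ < l ∧ l ≤ Y ∧ α + κ < gg l) → ∑ l ∈ S, (1 : ℝ) / l ≤ ε

/-- windows -/
def WW : Prop :=
  ∀ α t1 θ τ : ℝ, LowEdge α → α < t1 → 0 < θ → 0 < τ → τ < 1 → ∀ X : ℕ,
    ∃ x0 : ℕ, X ≤ x0 ∧ ∀ y : ℕ, (x0 : ℝ) ^ τ ≤ y → y ≤ x0 →
      (blk (fun q => t1 < gg q) y : ℝ) ≤ θ * (y / Real.log y)

def Step3 : Prop := ∀ α β : ℝ, LowEdge α → HighEdge β → β ≤ α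

def PrimesClaim : Prop :=
  ∃ α : ℝ, ∀ ε : ℝ, 0 < ε → Small (fun q => ε < |gg q - α|)

/-! ## Part VII: integers -/

def fvsF : Prop :=
  ∀ n : ℕ, 2 ≤ n → (Even n → sInf {k : ℕ | 1 ≤ k ∧ Nat.totient^[k] n = 1} = FF n) ∧
    (Odd n → sInf {k : ℕ | 1 ≤ k ∧ Nat.totient^[k] n = 1} = FF n + 1)

def Main : Prop :=
  ∃ c : ℝ, ∀ ε : ℝ, ε > 0 →
      Filter.Tendsto
        (fun N : ℕ =>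
          (((Finset.range N).filter
              (fun n : ℕ =>
                ε < |((sInf {k : ℕ | 1 ≤ k ∧ Nat.totient^[k] n = 1} : ℕ) : ℝ)
                      / Real.log (n : ℝ) - c|)).card : ℝ) / (N : ℝ))
        Filter.atTop (nhds 0)

end

end Pool.Agent.Helper44.TOT
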