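import Pool.Agent.Helper44.TOT.Defs

set_option autoImplicit false

namespace Pool.Agent.Helper44.TOT

theorem up_eq (σ : List ℕ) (n : ℕ) : up σ n = σ.prod * n + up σ 0 := by
  induction σ with
  | nil => simp [up]
  | cons m σ ih =>
    simp only [up, List.prod_cons]
    rw [ih]
    ring

theorem prod_pos' (σ : List ℕ) (h : ∀ m ∈ σ, 1 ≤ m) : 1 ≤ σ.prod := by
  induction σ with
  | nil => simp
  | cons m σ ih =>
    rw [List.prod_cons]
    have h1 := h m (by simp)
    have h2 := ih (fun k hk => h k (by simp [hk]))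
    exact Nat.one_le_iff_ne_zero.2 (Nat.mul_ne_zero (by omega) (by omega))

theorem up_zero_le (σ : List ℕ) (h : ∀ m ∈ σ, 1 ≤ m) : up σ 0 ≤ σ.length * σ.prod := by
  induction σ with
  | nil => simp [up]
  | cons m σ ih =>
    have h1 := h m (by simp)
    have h2 := ih (fun k hk => h k (by simp [hk]))
    have h3 := prod_pos' (m :: σ) h
    simp only [up, List.length_cons, List.prod_cons] at *
    calc m * up σ 0 + 1 ≤ m * (σ.length * σ.prod) + m * σ.prod := by
          exact Nat.add_le_add (Nat.mul_le_mul_left _ h2) h3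
      _ = (σ.length + 1) * (m * σ.prod) := by ring

theorem tails_mono (σ : List ℕ) : ∀ (τ₁ τ₂ : List ℕ), (∀ m ∈ σ, 1 ≤ m) → τ₁ ∈ σ.tails →
    τ₂ ∈ σ.tails → τ₁.length < τ₂.length →
    up τ₁ 0 * τ₂.prod < up τ₂ 0 * τ₁.prod ∧ τ₁.prod + up τ₁ 0 < τ₂.prod + up τ₂ 0 ∧
      τ₁.prod ≤ τ₂.prod := by
  intro τ₁ τ₂ hσ h1 h2 hlen
  rw [List.mem_tails] at h1 h2
  -- τ₁ is a suffix of τ₂
  have h12 : τ₁ <:+ τ₂ := List.suffix_of_suffix_length_le h1 h2 hlen.le
  have hτ2 : ∀ m ∈ τ₂, 1 ≤ m := fun m hm => hσ m (h2.subset hm)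
  clear h1 h2 hσ
  obtain ⟨ρ, rfl⟩ := h12
  have hρ : ρ ≠ [] := by
    rintro rfl
    simp at hlen
  clear hlen
  induction ρ with
  | nil => exact absurd rfl hρ
  | cons m ρ ih =>
    have hm : 1 ≤ m := hτ2 m (by simp)
    have hτ' : ∀ k ∈ ρ ++ τ₁, 1 ≤ k := fun k hk => hτ2 k (by
      rw [List.cons_append]; exact List.mem_cons_of_mem _ hk)
    have hτ1 : ∀ k ∈ τ₁, 1 ≤ k := fun k hk => hτ' k (by simp [hk])
    have hp1 := prod_pos' τ₁ hτ1
    have hp := prod_pos' (ρ ++ τ₁) hτ'
    rw [List.cons_append]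
    simp only [up, List.prod_cons]
    by_cases hρ' : ρ = []
    · subst hρ'
      simp only [List.nil_append] at *
      refine ⟨by nlinarith, by nlinarith, by nlinarith⟩
    · obtain ⟨i1, i2, i3⟩ := ih hτ' hρ'
      refine ⟨by nlinarith, by nlinarith, by nlinarith⟩

theorem cp_iff (σ : List ℕ) (n : ℕ) : CP σ n ↔ ∀ τ ∈ σ.tails, (up τ n).Prime := by
  induction σ with
  | nil => simp [CP, up]
  | cons m σ ih =>
    simp only [CP, List.tails_cons, List.mem_cons, forall_eq_or_imp, up]
    rw [ih]

theorem chainAlg : ChainAlg :=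
  ⟨up_eq, up_zero_le, tails_mono, cp_iff⟩

theorem chainSum : ChainSum := by
  intro M r
  induction r with
  | zero => simp [chains]
  | succ r ih =>
    obtain ⟨ih1, ih2⟩ := ih
    constructor
    · rw [chains, Finset.sum_image, Finset.sum_product, pow_succ, ← ih1, mul_comm, Finset.sum_mul_sum]
      · apply Finset.sum_congr rfl
        intro m hm
        apply Finset.sum_congr rfl
        intro σ hσ
        simp only [List.prod_cons]
        push_cast
        rw [one_div_mul_one_div]
      · intro a ha b hb hab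
        simp only [List.cons.injEq] at hab
        exact Prod.ext hab.1 hab.2
    · intro σ hσ
      rw [chains, Finset.mem_image] at hσ
      obtain ⟨⟨m, τ⟩, hmτ, rfl⟩ := hσ
      rw [Finset.mem_product, Finset.mem_Icc] at hmτ
      obtain ⟨⟨hm1, hm2⟩, hτ⟩ := hmτ
      obtain ⟨h1, h2, h3, h4⟩ := ih2 τ hτ
      simp only at hm1 hm2 h1 h2 h3 h4
      refine ⟨by simp [h1], ?_, ?_, ?_⟩
      · intro k hk
        rcases List.mem_cons.1 hk with rfl | hk
        · exact ⟨hm1, hm2⟩
        · exact h2 k hk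
      · simp only [List.prod_cons]
        nlinarith
      · simp only [List.prod_cons]
        rw [pow_succ, mul_comm]
        exact Nat.mul_le_mul h4 hm2

theorem chainDec : ChainDec := by
  intro M1 R
  induction R with
  | zero =>
    intro p hp
    refine ⟨0, le_refl _, [], by simp [chains], p - 1, ?_, ?_, Or.inl rfl⟩
    · have := hp.one_lt
      simp only [up]; omega
    · have := hp.one_lt
      have h : p - 1 + 1 = p := by omega
      simpa [CP, h] using hp
  | succ R ih =>
    intro p hp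
    have h1 := hp.one_lt
    by_cases hs : ∀ m q : ℕ, q.Prime → p - 1 = m * q → M1 < m
    · refine ⟨0, Nat.zero_le _, [], by simp [chains], p - 1, ?_, ?_, Or.inr hs⟩
      · simp only [up]; omega
      · have h : p - 1 + 1 = p := by omega
        simpa [CP, h] using hp
    · push Not at hs
      obtain ⟨m, q, hq, hmq, hm⟩ := hs
      obtain ⟨r, hr, σ, hσ, n, hn1, hn2, hn3⟩ := ih q hq
      have hm1 : 1 ≤ m := by
        rcases Nat.eq_zero_or_pos m with rfl | h
        · simp at hmq; omega
        · exact h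
      have hpm : p = m * q + 1 := by omega
      refine ⟨r + 1, by omega, m :: σ, ?_, n, ?_, ?_, ?_⟩
      · rw [chains, Finset.mem_image]
        exact ⟨(m, σ), by simp [hσ, hm1, hm], rfl⟩
      · simp only [up]
        rw [← hn1]
        exact hpm
      · refine ⟨?_, hn2⟩
        rw [← hn1, ← hpm]
        exact hp
      · rcases hn3 with h | h
        · left; omega
        · right; exact h

theorem wsum_mul (G : ℕ → ℝ) (m n : ℕ) (hm : m ≠ 0) (hn : n ≠ 0) :
    wsum G (m * n) = wsum G m + wsum G n := by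
  unfold wsum
  have hS : ∀ k : ℕ, k ≠ 0 → k.primeFactors ⊆ (m * n).primeFactors →
      ∑ q ∈ k.primeFactors, (k.factorization q : ℝ) * Real.log q * G q =
      ∑ q ∈ (m * n).primeFactors, (k.factorization q : ℝ) * Real.log q * G q := by
    intro k hk hsub
    apply Finset.sum_subset hsub
    intro q _ hq2
    have : k.factorization q = 0 := by
      rw [← Nat.support_factorization] at hq2
      exact Finsupp.notMem_support_iff.1 hq2
    rw [this]; simp
  rw [hS m hm (by rw [Nat.primeFactors_mul hm hn]; exact Finset.subset_union_left),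
    hS n hn (by rw [Nat.primeFactors_mul hm hn]; exact Finset.subset_union_right),
    ← Finset.sum_add_distrib]
  apply Finset.sum_congr rfl
  intro q _
  rw [Nat.factorization_mul hm hn]
  simp only [Finsupp.add_apply]
  push_cast
  ring

theorem wsum_prime (G : ℕ → ℝ) (p : ℕ) (hp : p.Prime) : wsum G p = Real.log p * G p := by
  unfold wsum
  rw [Nat.Prime.primeFactors hp]
  simp [hp.factorization_self]

theorem wsum_const (c : ℝ) (n : ℕ) (hn : n ≠ 0) : wsum (fun _ => c) n = c * Real.log n := by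
  unfold wsum
  rw [← Finset.sum_mul]
  have h : Real.log n = ∑ q ∈ n.primeFactors, (n.factorization q : ℝ) * Real.log q := by
    conv_lhs => rw [← Nat.prod_factorization_pow_eq_self hn]
    rw [Finsupp.prod, Nat.support_factorization]
    push_cast
    rw [Real.log_prod]
    · apply Finset.sum_congr rfl
      intro q _
      rw [Real.log_pow]
    · intro q hq
      have := (Nat.prime_of_mem_primeFactors hq).pos
      positivity
  rw [← h]; ring

theorem wsum_le (G H : ℕ → ℝ) (n : ℕ) (h : ∀ q : ℕ, q.Prime → q ∣ n → G q ≤ H q) :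
    wsum G n ≤ wsum H n := by
  unfold wsum
  apply Finset.sum_le_sum
  intro q hq
  have hq' := Nat.prime_of_mem_primeFactors hq
  apply mul_le_mul_of_nonneg_left (h q hq' (Nat.dvd_of_mem_primeFactors hq))
  exact mul_nonneg (Nat.cast_nonneg _) (Real.log_natCast_nonneg _)

theorem chainG : ChainG := by
  intro G Λ σ n hG hΛ hΛ0 hσ hn hCP
  induction σ with
  | nil => simp [up]
  | cons m σ ih =>
    obtain ⟨hp, hCP'⟩ := hCP
    have hσ' : ∀ k ∈ σ, 1 ≤ k := fun k hk => hσ k (by simp [hk])
    have hm : 1 ≤ m := hσ m (by simp)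
    have ih' := ih hσ' hCP'
    have hup : n ≤ up σ n := by
      rw [up_eq]
      have := prod_pos' σ hσ'
      nlinarith
    have hprime : (up σ n).Prime := by
      have := (cp_iff σ n).1 hCP' σ (by simp)
      exact this
    have hav := hG (m * up σ n + 1) hp (by nlinarith)
    have h0 : up σ n ≠ 0 := hprime.pos.ne'
    rw [Nat.add_sub_cancel, wsum_mul G m (up σ n) (by omega) h0, wsum_prime G _ hprime] at hav
    have hw : wsum G m ≤ Λ * Real.log m := by
      rw [← wsum_const Λ m (by omega)]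
      exact wsum_le G _ m (fun q hq _ => hΛ q hq)
    have hlog : Real.log ((m :: σ).prod : ℕ) = Real.log m + Real.log (σ.prod : ℕ) := by
      rw [List.prod_cons, Nat.cast_mul, Real.log_mul]
      · exact_mod_cast (by omega : m ≠ 0)
      · have := prod_pos' σ hσ'
        exact_mod_cast (by omega : σ.prod ≠ 0)
    simp only [up]
    rw [hlog]
    nlinarith

theorem blk_mono (P Q : ℕ → Prop) (y : ℕ) (h : ∀ q : ℕ, q.Prime → q ≤ y → P q → Q q) :
    blk P y ≤ blk Q y := by
  unfold blk
  apply Finset.card_le_card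
  intro q hq
  simp only [Finset.mem_filter, Finset.mem_Ioc] at hq ⊢
  exact ⟨hq.1, hq.2.1, h q hq.2.1 hq.1.2 hq.2.2⟩

theorem cover3 : Cover3 := by
  intro P Y E hY hE
  classical
  set y := ⌊2 * Y⌋₊ with hy
  have hsub : E ⊆ ((Finset.Ioc (y / 2) y).filter (fun q => q.Prime ∧ P q)) ∪
      ((Finset.Ioc (y / 2 / 2) (y / 2)).filter (fun q => q.Prime ∧ P q)) ∪
      ((Finset.Ioc (y / 4 / 2) (y / 4)).filter (fun q => q.Prime ∧ P q)) := by
    intro q hq
    obtain ⟨h1, h2, h3, h4⟩ := hE q hq
    have hqy : q ≤ y := Nat.le_floor h4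
    have hq8 : y / 8 < q := by
      have h5 : (y : ℝ) ≤ 2 * Y := Nat.floor_le (by linarith)
      have h6 : ((y / 8 : ℕ) : ℝ) ≤ (y : ℝ) / 8 := by exact_mod_cast Nat.cast_div_le
      have h7 : ((y / 8 : ℕ) : ℝ) < q := by linarith
      exact_mod_cast h7
    simp only [Finset.mem_union, Finset.mem_filter, Finset.mem_Ioc]
    have e1 : y / 2 / 2 = y / 4 := by omega
    have e2 : y / 4 / 2 = y / 8 := by omega
    rw [e1, e2]
    by_cases c1 : y / 2 < q
    · left; left; exact ⟨⟨c1, hqy⟩, h1, h2⟩
    · by_cases c2 : y / 4 < q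
      · left; right; exact ⟨⟨c2, by omega⟩, h1, h2⟩
      · right; exact ⟨⟨hq8, by omega⟩, h1, h2⟩
  have := Finset.card_le_card hsub
  refine this.trans ?_
  refine (Finset.card_union_le _ _).trans ?_
  have h2 := Finset.card_union_le ((Finset.Ioc (y / 2) y).filter (fun q => q.Prime ∧ P q))
    ((Finset.Ioc (y / 2 / 2) (y / 2)).filter (fun q => q.Prime ∧ P q))
  unfold blk
  omega

end Pool.Agent.Helper44.TOT
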