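import Pool.Agent.Helper44.TOT.Defs

set_option autoImplicit false
open Filter Topology

namespace Pool.Agent.Helper44.TOT

/-- the iteration length divided by `log n` -/
noncomputable def fl (n : ℕ) : ℝ :=
  ((sInf {k : ℕ | 1 ≤ k ∧ Nat.totient^[k] n = 1} : ℕ) : ℝ) / Real.log (n : ℝ)

theorem dist_of_main (hM : Main) :
    ∃ F : ℝ → ℝ,
      Monotone F ∧
      (∀ x : ℝ, ContinuousWithinAt F (Set.Ici x) x) ∧
      Tendsto F atBot (𝓝 0) ∧
      Tendsto F atTop (𝓝 1) ∧
      ∀ x : ℝ, ContinuousAt F x →
        Tendsto
          (fun N : ℕ =>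
            ((((Finset.range N).filter
                (fun n : ℕ =>
                  ((sInf {k : ℕ | 1 ≤ k ∧ Nat.totient^[k] n = 1} : ℕ) : ℝ)
                    / Real.log (n : ℝ) ≤ x)).card : ℝ) / (N : ℝ)))
          atTop (𝓝 (F x)) := by
  obtain ⟨c, hc⟩ := hM
  refine ⟨fun x => if c ≤ x then 1 else 0, ?_, ?_, ?_, ?_, ?_⟩
  · intro x y hxy
    dsimp only
    split_ifs with h1 h2
    · exact le_refl _
    · exact absurd (h1.trans hxy) h2
    · norm_num
    · exact le_refl _
  · intro x
    by_cases hx : c ≤ x
    · have : ContinuousWithinAt (fun _ : ℝ => (1 : ℝ)) (Set.Ici x) x := continuousWithinAt_const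
      refine this.congr ?_ ?_
      · intro y hy
        simp only [Set.mem_Ici] at hy
        rw [if_pos (hx.trans hy)]
      · rw [if_pos hx]
    · push Not at hx
      have h1 : (fun y : ℝ => if c ≤ y then (1 : ℝ) else 0) =ᶠ[𝓝 x] fun _ => 0 := by
        filter_upwards [Iio_mem_nhds hx] with y hy
        rw [if_neg (not_le.2 hy)]
      have h2 : ContinuousAt (fun y : ℝ => if c ≤ y then (1 : ℝ) else 0) x :=
        continuousAt_const.congr h1.symm
      exact h2.continuousWithinAt
  · refine tendsto_const_nhds.congr' ?_
    filter_upwards [eventually_lt_atBot c] with y hy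
    rw [if_neg (not_le.2 hy)]
  · refine tendsto_const_nhds.congr' ?_
    filter_upwards [eventually_ge_atTop c] with y hy
    rw [if_pos hy]
  · intro x hx
    have hxc : x ≠ c := by
      rintro rfl
      have h1 : Tendsto (fun y : ℝ => if x ≤ y then (1 : ℝ) else 0) (𝓝[<] x) (𝓝 1) := by
        have := hx.tendsto
        simp only [le_refl, if_true] at this
        exact this.mono_left nhdsWithin_le_nhds
      have h2 : Tendsto (fun y : ℝ => if x ≤ y then (1 : ℝ) else 0) (𝓝[<] x) (𝓝 0) := by
        refine tendsto_const_nhds.congr' ?_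
        filter_upwards [self_mem_nhdsWithin] with y hy
        rw [if_neg (not_le.2 hy)]
      exact one_ne_zero (tendsto_nhds_unique h1 h2)
    rcases lt_or_gt_of_ne hxc with hlt | hgt
    · simp only [if_neg (not_le.2 hlt)]
      have h := hc ((c - x) / 2) (by linarith)
      refine tendsto_of_tendsto_of_tendsto_of_le_of_le tendsto_const_nhds h ?_ ?_
      · intro N
        positivity
      · intro N
        dsimp only
        gcongr
        intro hn
        refine lt_of_lt_of_le ?_ (neg_le_abs _)
        linarith
    · simp only [if_pos hgt.le]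
      have h := hc ((x - c) / 2) (by linarith)
      have h1 : Tendsto (fun N : ℕ => (1 : ℝ) - (((Finset.range N).filter
              (fun n : ℕ =>
                (x - c) / 2 < |((sInf {k : ℕ | 1 ≤ k ∧ Nat.totient^[k] n = 1} : ℕ) : ℝ)
                      / Real.log (n : ℝ) - c|)).card : ℝ) / (N : ℝ)) atTop (𝓝 1) := by
        have := h.const_sub 1
        simpa using this
      refine tendsto_of_tendsto_of_tendsto_of_le_of_le' h1 tendsto_const_nhds ?_ ?_
      · filter_upwards [eventually_gt_atTop 0] with N hN
        have hN' : (0 : ℝ) < N := by exact_mod_cast hN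
        rw [le_div_iff₀ hN', sub_mul, div_mul_cancel₀ _ hN'.ne', one_mul, sub_le_iff_le_add]
        have hsplit := Finset.card_filter_add_card_filter_not (s := Finset.range N)
          (fun n : ℕ => ((sInf {k : ℕ | 1 ≤ k ∧ Nat.totient^[k] n = 1} : ℕ) : ℝ)
                    / Real.log (n : ℝ) ≤ x)
        rw [Finset.card_range] at hsplit
        have h3 : ((Finset.range N).filter (fun n : ℕ => ¬
            ((sInf {k : ℕ | 1 ≤ k ∧ Nat.totient^[k] n = 1} : ℕ) : ℝ)
                    / Real.log (n : ℝ) ≤ x)).card ≤ ((Finset.range N).filter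
              (fun n : ℕ =>
                (x - c) / 2 < |((sInf {k : ℕ | 1 ≤ k ∧ Nat.totient^[k] n = 1} : ℕ) : ℝ)
                      / Real.log (n : ℝ) - c|)).card := by
          apply Finset.card_le_card
          intro n hn
          rw [Finset.mem_filter] at hn ⊢
          refine ⟨hn.1, ?_⟩
          have h4 := hn.2
          push Not at h4
          have : (x - c) / 2 < ((sInf {k : ℕ | 1 ≤ k ∧ Nat.totient^[k] n = 1} : ℕ) : ℝ)
                      / Real.log (n : ℝ) - c := by linarith
          exact this.trans_le (le_abs_self _)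
        have h5 := congrArg (Nat.cast (R := ℝ)) hsplit
        rw [Nat.cast_add] at h5
        have h6 := (Nat.cast_le (α := ℝ)).2 h3
        linarith
      · filter_upwards [eventually_gt_atTop 0] with N hN
        have hN' : (0 : ℝ) < N := by exact_mod_cast hN
        rw [div_le_one hN']
        have := Finset.card_filter_le (Finset.range N) (fun n : ℕ =>
          ((sInf {k : ℕ | 1 ≤ k ∧ Nat.totient^[k] n = 1} : ℕ) : ℝ) / Real.log (n : ℝ) ≤ x)
        rw [Finset.card_range] at this
        exact_mod_cast this

end Pool.Agent.Helper44.TOT
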