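import Pool.Agent.Helper44.TOT.Chain

set_option autoImplicit false

namespace Pool.Agent.Helper44.TOT

theorem tt_nonneg (x0 x : ℕ) (h3 : 3 ≤ x0) (hx : x0 ≤ x) : 0 ≤ tt x0 x := by
  unfold tt
  apply Real.log_nonneg
  have h1 : 0 < Real.log x0 := Real.log_pos (by exact_mod_cast (by omega : 1 < x0))
  rw [le_div_iff₀ h1, one_mul]
  exact Real.log_le_log (by exact_mod_cast (by omega : 0 < x0)) (by exact_mod_cast hx)

theorem bb_nonneg (ε t : ℝ) (hε : 0 < ε) (ht : 0 ≤ t) : 0 ≤ bb ε t := by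
  unfold bb
  have h : 0 ≤ ε * t := by positivity
  have : 1 / (1 + ε * t) ≤ 1 := by
    rw [div_le_one (by linarith)]
    linarith
  linarith

theorem avgGx : AvgGx := by
  intro h x0 x N0 ε h3 hx hN0 hε hh p hp hp5
  have ht := tt_nonneg x0 x h3 hx
  have hb := bb_nonneg ε _ hε ht
  have hN : 0 ≤ NN N0 ε (tt x0 x) := by unfold NN; positivity
  have h1 := hh p hp hp5
  have h2 : wsum (Gx h x0 N0 ε x) (p - 1) =
      NN N0 ε (tt x0 x) * (wsum h (p - 1) - bb ε (tt x0 x) * Real.log ((p - 1 : ℕ) : ℝ)) := by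
    rw [← wsum_const (bb ε (tt x0 x)) (p - 1) (by omega)]
    unfold wsum Gx
    rw [← Finset.sum_sub_distrib, Finset.mul_sum]
    apply Finset.sum_congr rfl
    intro q _
    ring
  rw [h2]
  unfold Gx
  have h3' : Real.log ((p - 1 : ℕ) : ℝ) ≤ Real.log p := by
    apply Real.log_le_log
    · exact_mod_cast (by omega : 0 < p - 1)
    · exact_mod_cast (by omega : p - 1 ≤ p)
  calc NN N0 ε (tt x0 x) * (h p - bb ε (tt x0 x)) * Real.log p
      = NN N0 ε (tt x0 x) * (h p * Real.log p - bb ε (tt x0 x) * Real.log p) := by ring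
    _ ≤ _ := by
      apply mul_le_mul_of_nonneg_left _ hN
      nlinarith

theorem conv : Conv := by
  intro h x0 x y a N0 ε C0 β h3 hxy hyx hN0 hε hC0 hIH hβ
  have hy3 : 3 ≤ y := by omega
  have hlx0 : 0 < Real.log x0 := Real.log_pos (by exact_mod_cast (by omega : 1 < x0))
  have hly : 0 < Real.log y := Real.log_pos (by exact_mod_cast (by omega : 1 < y))
  have hlx : 0 < Real.log x := Real.log_pos (by exact_mod_cast (by omega : 1 < x))
  have hty := tt_nonneg x0 y h3 hxy
  have htx := tt_nonneg x0 x h3 (by omega)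
  have hdiff : tt x0 x - tt x0 y = Real.log (Real.log x / Real.log y) := by
    unfold tt
    rw [Real.log_div hlx.ne' hlx0.ne', Real.log_div hly.ne' hlx0.ne', Real.log_div hlx.ne' hly.ne']
    ring
  have hlag : 0 ≤ Real.log (Real.log x / Real.log y) := by
    apply Real.log_nonneg
    rw [le_div_iff₀ hly, one_mul]
    exact Real.log_le_log (by exact_mod_cast (by omega : 0 < y)) (by exact_mod_cast hyx.le)
  set τ := Real.log (Real.log x / Real.log y) with hτ
  set ty := tt x0 y with hty'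
  set tx := tt x0 x with htx'
  have hP' : 0 < 1 + ε * ty := by positivity
  have hP : 0 < 1 + ε * tx := by positivity
  have hPP : 1 + ε * ty ≤ 1 + ε * tx := by nlinarith
  set r := (1 + ε * ty) / (1 + ε * tx) with hr
  have hr0 : 0 < r := by positivity
  have hr1 : r ≤ 1 := by rw [hr, div_le_one hP]; exact hPP
  have hz : 0 ≤ r ^ 2 * (β + N0 * ε / 2 * τ) := by positivity
  refine le_trans ?_ (hIH _ hz)
  have hmono : blk (fun q => β ≤ NN N0 ε tx * (h q - bb ε tx)) y ≤
      blk (fun q => r ^ 2 * (β + N0 * ε / 2 * τ) ≤ NN N0 ε ty * (h q - bb ε ty)) y := by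
    apply blk_mono
    intro q _ _ hq
    have key : NN N0 ε ty * (h q - bb ε ty) =
        r ^ 2 * (NN N0 ε tx * (h q - bb ε tx)) + N0 * ε / 2 * τ * r := by
      unfold NN bb
      rw [hr, ← hdiff]
      field_simp
      ring
    rw [key]
    have h1 : r ^ 2 * β ≤ r ^ 2 * (NN N0 ε tx * (h q - bb ε tx)) :=
      mul_le_mul_of_nonneg_left hq (by positivity)
    have h2 : r ^ 2 * (N0 * ε / 2 * τ) ≤ N0 * ε / 2 * τ * r := by
      have : r ^ 2 ≤ r := by nlinarith
      have h3 : 0 ≤ N0 * ε / 2 * τ := by positivity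
      nlinarith
    nlinarith
  exact_mod_cast hmono

theorem inner_pow_helper (E : Finset ℕ) (f : ℕ → ℝ) (hf : ∀ q ∈ E, 0 ≤ f q) (k : ℕ) :
    (∑ q ∈ E, f q) ^ (k + 1) ≤ (E.card : ℝ) ^ k * ∑ q ∈ E, f q ^ (k + 1) := by
  by_cases hE : E = ∅
  · subst hE
    simp
  have hc : 0 < (E.card : ℝ) := by
    exact_mod_cast Finset.card_pos.2 (Finset.nonempty_iff_ne_empty.2 hE)
  have h := pow_sum_div_card_le_sum_pow (s := E) (f := f) hf k
  rw [div_le_iff₀ (by positivity)] at h
  linarith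

theorem holderFF : HolderFF := by
  intro E T K hK
  by_cases h0 : (∑ q ∈ E, (T q : ℝ)) - 2 * K * E.card ≤ 0
  · left; exact h0
  right
  push Not at h0
  classical
  set E' := E.filter (fun q => 2 * K ≤ T q) with hE'
  have h1 : (∑ q ∈ E, (T q : ℝ)) - 2 * K * E.card ≤ ∑ q ∈ E', (T q : ℝ) := by
    have hsplit := Finset.sum_filter_add_sum_filter_not E (fun q => 2 * K ≤ T q)
      (fun q => (T q : ℝ))
    have h2 : ∑ q ∈ E.filter (fun q => ¬ 2 * K ≤ T q), (T q : ℝ) ≤
        ∑ q ∈ E.filter (fun q => ¬ 2 * K ≤ T q), ((2 * K : ℕ) : ℝ) := by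
      apply Finset.sum_le_sum
      intro q hq
      rw [Finset.mem_filter] at hq
      exact_mod_cast (by omega : T q ≤ 2 * K)
    rw [Finset.sum_const, nsmul_eq_mul] at h2
    have h3 : ((E.filter (fun q => ¬ 2 * K ≤ T q)).card : ℝ) ≤ E.card := by
      exact_mod_cast Finset.card_filter_le _ _
    have h4 : ((E.filter (fun q => ¬ 2 * K ≤ T q)).card : ℝ) * ((2 * K : ℕ) : ℝ) ≤
        2 * K * E.card := by
      push_cast
      have : (0 : ℝ) ≤ 2 * K := by positivity
      nlinarith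
    linarith
  have hpow : ((∑ q ∈ E, (T q : ℝ)) - 2 * K * E.card) ^ K ≤ (∑ q ∈ E', (T q : ℝ)) ^ K :=
    pow_le_pow_left₀ h0.le h1 K
  refine hpow.trans ?_
  obtain ⟨k, rfl⟩ : ∃ k, K = k + 1 := ⟨K - 1, by omega⟩
  have hpm : (∑ q ∈ E', (T q : ℝ)) ^ (k + 1) ≤
      (E'.card : ℝ) ^ k * ∑ q ∈ E', (T q : ℝ) ^ (k + 1) :=
    inner_pow_helper E' (fun q => (T q : ℝ)) (fun q _ => Nat.cast_nonneg _) k
  refine hpm.trans ?_
  have hc : (E'.card : ℝ) ≤ E.card := by exact_mod_cast Finset.card_filter_le _ _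
  have hs : ∑ q ∈ E', (T q : ℝ) ^ (k + 1) ≤
      2 ^ (k + 1) * ∑ q ∈ E, ((T q).descFactorial (k + 1) : ℝ) := by
    rw [Finset.mul_sum]
    refine le_trans (Finset.sum_le_sum (g := fun q => (2 : ℝ) ^ (k + 1) *
      ((T q).descFactorial (k + 1) : ℝ)) ?_) ?_
    · intro q hq
      rw [hE', Finset.mem_filter] at hq
      have h5 : (T q + 1 - (k + 1)) ^ (k + 1) ≤ (T q).descFactorial (k + 1) :=
        Nat.pow_sub_le_descFactorial _ _
      have h6 : ((T q : ℝ) / 2) ^ (k + 1) ≤ ((T q).descFactorial (k + 1) : ℝ) := by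
        have h5' : (((T q + 1 - (k + 1) : ℕ) : ℝ)) ^ (k + 1) ≤
            ((T q).descFactorial (k + 1) : ℝ) := by exact_mod_cast h5
        refine le_trans ?_ h5'
        apply pow_le_pow_left₀ (by positivity)
        have h7 : T q ≤ 2 * (T q + 1 - (k + 1)) := by omega
        have h8 : (T q : ℝ) ≤ 2 * ((T q + 1 - (k + 1) : ℕ) : ℝ) := by exact_mod_cast h7
        linarith
      rw [div_pow] at h6
      rw [div_le_iff₀ (by positivity)] at h6
      linarith
    · apply Finset.sum_le_sum_of_subset_of_nonneg (Finset.filter_subset _ _)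
      intro q _ _
      positivity
  have hk : k + 1 - 1 = k := by omega
  rw [hk]
  calc (E'.card : ℝ) ^ k * ∑ q ∈ E', (T q : ℝ) ^ (k + 1)
      ≤ (E.card : ℝ) ^ k * (2 ^ (k + 1) * ∑ q ∈ E, ((T q).descFactorial (k + 1) : ℝ)) := by
        apply mul_le_mul (pow_le_pow_left₀ (by positivity) hc k) hs
        · apply Finset.sum_nonneg
          intro q _
          positivity
        · positivity
    _ = _ := by ring

end Pool.Agent.Helper44.TOT
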