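import Mathlib
import Pool.Agent.Helper44.TOT.Defs

set_option autoImplicit false

open Finset

namespace Pool.Agent.Helper44.TOT

theorem u3_harm (m : ℕ) : Real.log ((m : ℝ) + 1) ≤ ∑ n ∈ Finset.Icc 1 m, (1 : ℝ) / n := by
  have h := log_add_one_le_harmonic m
  have e : ((harmonic m : ℚ) : ℝ) = ∑ n ∈ Finset.Icc 1 m, (1 : ℝ) / n := by
    rw [harmonic_eq_sum_Icc]
    push_cast
    refine Finset.sum_congr rfl fun i _ => ?_
    rw [one_div]
  rw [← e]
  push_cast at h
  exact h

theorem u3_prod (s : Finset ℕ) (f : ℕ → ℝ) (hf : ∀ i ∈ s, 0 ≤ f i) :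
    1 + ∑ i ∈ s, f i ≤ ∏ i ∈ s, (1 + f i) := by
  classical
  induction s using Finset.induction_on with
  | empty => simp
  | insert a s ha ih =>
    rw [Finset.sum_insert ha, Finset.prod_insert ha]
    have h1 := hf a (Finset.mem_insert_self a s)
    have h2 := ih (fun i hi => hf i (Finset.mem_insert_of_mem hi))
    have h3 : 0 ≤ ∑ i ∈ s, f i :=
      Finset.sum_nonneg fun i hi => hf i (Finset.mem_insert_of_mem hi)
    nlinarith [mul_nonneg h1 h3]

theorem u3_term (N : Finset ℕ) (hN : ∀ l ∈ N, l.Prime) (c : ℕ → ℝ)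
    (hc : ∀ l, c l = if l ∈ N then 2 else 1) (n : ℕ) (hn : 1 ≤ n) :
    (1 / (n : ℝ)) * (1 + ((N.filter (fun l => l ∣ n)).card : ℝ)) ≤
      ∏ l ∈ n.primeFactors, (c l / l) ^ (n.factorization l) := by
  classical
  have hn0 : n ≠ 0 := by omega
  have e1 : ∏ l ∈ n.primeFactors, (c l / l) ^ (n.factorization l)
      = (∏ l ∈ n.primeFactors, (c l) ^ (n.factorization l)) *
        (1 / ∏ l ∈ n.primeFactors, (l : ℝ) ^ (n.factorization l)) := by
    rw [one_div, ← Finset.prod_inv_distrib, ← Finset.prod_mul_distrib]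
    refine Finset.prod_congr rfl fun l _ => ?_
    rw [div_pow, div_eq_mul_inv]
  have e2 : ∏ l ∈ n.primeFactors, (l : ℝ) ^ (n.factorization l) = n := by
    have := Nat.prod_factorization_pow_eq_self hn0
    rw [Nat.prod_factorization_eq_prod_primeFactors] at this
    exact_mod_cast this
  rw [e1, e2, mul_comm]
  refine mul_le_mul_of_nonneg_right ?_ (by positivity)
  have hc1 : ∀ l, 1 ≤ c l := by
    intro l
    rw [hc]
    split_ifs <;> norm_num
  have e3 : ∏ l ∈ n.primeFactors, (1 + (if l ∈ N then (1 : ℝ) else 0)) ≤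
      ∏ l ∈ n.primeFactors, (c l) ^ (n.factorization l) := by
    refine Finset.prod_le_prod (fun l _ => by split_ifs <;> norm_num) fun l hl => ?_
    have hv : n.factorization l ≠ 0 := by
      have h4 := Nat.prime_of_mem_primeFactors hl
      have h5 := Nat.dvd_of_mem_primeFactors hl
      exact (h4.factorization_pos_of_dvd hn0 h5).ne'
    have h6 : c l ≤ (c l) ^ (n.factorization l) := le_self_pow₀ (hc1 l) hv
    refine le_trans (le_of_eq ?_) h6
    rw [hc]
    split_ifs <;> norm_num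
  refine le_trans ?_ e3
  refine le_trans (le_of_eq ?_) (u3_prod _ _ (fun l _ => by split_ifs <;> norm_num))
  congr 1
  rw [Finset.sum_ite, Finset.sum_const_zero, add_zero, Finset.sum_const, nsmul_eq_mul, mul_one]
  congr 2
  ext l
  simp only [Finset.mem_filter, Nat.mem_primeFactors]
  constructor
  · rintro ⟨h1, h2⟩
    exact ⟨⟨hN l h1, h2, hn0⟩, h1⟩
  · rintro ⟨⟨_, h2, _⟩, h1⟩
    exact ⟨h1, h2⟩

theorem u3_multiples (l z : ℕ) (hl : 1 ≤ l) :
    (1 / (l : ℝ)) * Real.log (((z / l : ℕ) : ℝ) + 1) ≤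
      ∑ n ∈ (Finset.Icc 1 z).filter (fun n => l ∣ n), (1 : ℝ) / n := by
  classical
  have hinj : Set.InjOn (fun k : ℕ => l * k) ((Finset.Icc 1 (z / l) : Finset ℕ) : Set ℕ) := by
    intro a _ b _ hab
    exact Nat.eq_of_mul_eq_mul_left hl hab
  have hsub : (Finset.Icc 1 (z / l)).image (fun k => l * k) ⊆
      (Finset.Icc 1 z).filter (fun n => l ∣ n) := by
    intro n hn
    obtain ⟨k, hk, rfl⟩ := Finset.mem_image.mp hn
    rw [Finset.mem_Icc] at hk
    rw [Finset.mem_filter, Finset.mem_Icc]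
    refine ⟨⟨Nat.mul_pos hl hk.1, ?_⟩, Dvd.intro k rfl⟩
    calc l * k ≤ l * (z / l) := Nat.mul_le_mul_left l hk.2
      _ ≤ z := Nat.mul_div_le z l
  refine le_trans ?_ (Finset.sum_le_sum_of_subset_of_nonneg hsub (fun _ _ _ => by positivity))
  rw [Finset.sum_image hinj]
  have e : ∀ k ∈ Finset.Icc 1 (z / l), (1 : ℝ) / ((l * k : ℕ) : ℝ) = (1 / (l : ℝ)) * (1 / k) := by
    intro k _
    push_cast
    rw [one_div_mul_one_div]
  rw [Finset.sum_congr rfl e, ← Finset.mul_sum]
  exact mul_le_mul_of_nonneg_left (u3_harm _) (by positivity)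

theorem u3 (h1 : SieveIneq) (h2 : JGe) : U3 := by
  classical
  refine ⟨40, 4, by norm_num, ?_⟩
  intro x N S hx hN hS
  have hxR : (4 : ℝ) ≤ x := by exact_mod_cast hx
  have hx0 : (0 : ℝ) < x := by linarith
  have hlx : 0 < Real.log x := Real.log_pos (by linarith)
  set w : ℝ := (x : ℝ) ^ ((1 : ℝ) / 10) with hw
  have hw1 : 1 ≤ w := Real.one_le_rpow (by linarith) (by norm_num)
  set z : ℕ := ⌊w⌋₊ with hz
  have hzw : (z : ℝ) ≤ w := Nat.floor_le (by linarith)
  have hzw' : w < z + 1 := Nat.lt_floor_add_one w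
  set P : Finset ℕ := (Finset.Icc 1 z).filter Nat.Prime with hP
  set Om : ℕ → Finset ℕ := fun l => if l ∈ N then {0, 1} else {0} with hOm
  have hOmc : ∀ l, (((Om l).card : ℕ) : ℝ) = if l ∈ N then 2 else 1 := by
    intro l
    simp only [hOm]
    split_ifs <;> simp
  have hOmn : ∀ l, (Om l).card = if l ∈ N then 2 else 1 := by
    intro l
    simp only [hOm]
    split_ifs <;> simp
  have hPp : ∀ l ∈ P, l.Prime := fun l hl => (Finset.mem_filter.mp hl).2
  have hlt : ∀ l ∈ P, (Om l).card < l := by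
    intro l hl
    rw [hOmn]
    split_ifs with h
    · have := (hN l h).2.1
      omega
    · exact (hPp l hl).one_lt
  have hsieve := h1 P Om z (x + 1) hPp ?_ ?_ hlt
  rotate_left
  · intro l hl r hr
    rw [Finset.mem_range]
    simp only [hOm] at hr
    split_ifs at hr with h
    · have := (hN l h).2.1
      rw [Finset.mem_insert, Finset.mem_singleton] at hr
      omega
    · rw [Finset.mem_singleton] at hr
      have := (hPp l hl).pos
      omega
  · intro l hl
    rw [hOmn]
    split_ifs <;> norm_num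
  have hJ := h2 P (fun l => ((Om l).card : ℝ)) z hPp (fun l hl => ⟨by positivity, by
    exact_mod_cast hlt l hl⟩)
  -- lower bound for J
  have hP' : (Finset.Icc 1 z).filter (fun n => n.primeFactors ⊆ P) = Finset.Icc 1 z := by
    refine Finset.filter_true_of_mem fun n hn => ?_
    rw [Finset.mem_Icc] at hn
    intro l hl
    rw [hP, Finset.mem_filter, Finset.mem_Icc]
    have h3 := Nat.prime_of_mem_primeFactors hl
    have h4 := Nat.dvd_of_mem_primeFactors hl
    exact ⟨⟨h3.pos, (Nat.le_of_dvd (by omega) h4).trans hn.2⟩, h3⟩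
  rw [hP'] at hJ
  have hlow : (3 / 40 * Real.log x) * (1 + ∑ l ∈ N, (1 : ℝ) / l) ≤
      ∑ n ∈ Finset.Icc 1 z, ∏ l ∈ n.primeFactors,
        (((Om l).card : ℝ) / l) ^ (n.factorization l) := by
    have s1 : ∑ n ∈ Finset.Icc 1 z, (1 / (n : ℝ)) * (1 + ((N.filter (fun l => l ∣ n)).card : ℝ)) ≤
        ∑ n ∈ Finset.Icc 1 z, ∏ l ∈ n.primeFactors,
          (((Om l).card : ℝ) / l) ^ (n.factorization l) := by
      refine Finset.sum_le_sum fun n hn => ?_
      rw [Finset.mem_Icc] at hn
      exact u3_term N (fun l hl => (hN l hl).1) (fun l => ((Om l).card : ℝ)) hOmc n hn.1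
    refine le_trans ?_ s1
    have s2 : ∑ n ∈ Finset.Icc 1 z, (1 / (n : ℝ)) * (1 + ((N.filter (fun l => l ∣ n)).card : ℝ))
        = ∑ n ∈ Finset.Icc 1 z, (1 : ℝ) / n +
          ∑ l ∈ N, ∑ n ∈ (Finset.Icc 1 z).filter (fun n => l ∣ n), (1 : ℝ) / n := by
      have s3 : ∀ n ∈ Finset.Icc 1 z, (1 / (n : ℝ)) * (1 + ((N.filter (fun l => l ∣ n)).card : ℝ))
          = (1 : ℝ) / n + ∑ l ∈ N, if l ∣ n then (1 : ℝ) / n else 0 := by
        intro n _
        rw [Finset.sum_ite, Finset.sum_const_zero, add_zero, Finset.sum_const, nsmul_eq_mul]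
        ring
      rw [Finset.sum_congr rfl s3, Finset.sum_add_distrib, Finset.sum_comm]
      congr 1
      refine Finset.sum_congr rfl fun l _ => ?_
      rw [Finset.sum_filter]
    rw [s2, mul_add, mul_one, Finset.mul_sum]
    have hlogw : Real.log w = 1 / 10 * Real.log x := by
      rw [hw, Real.log_rpow hx0]
    refine add_le_add ?_ (Finset.sum_le_sum fun l hl => ?_)
    · refine le_trans ?_ (u3_harm z)
      have : Real.log w ≤ Real.log ((z : ℝ) + 1) :=
        Real.log_le_log (by linarith) hzw'.le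
      rw [hlogw] at this
      linarith
    · obtain ⟨hlp, hl3, hlx'⟩ := hN l hl
      have hl0 : (0 : ℝ) < l := by exact_mod_cast hlp.pos
      refine le_trans ?_ (u3_multiples l z hlp.pos)
      rw [mul_comm]
      refine mul_le_mul_of_nonneg_left ?_ (by positivity)
      have h5 : (x : ℝ) ^ ((3 : ℝ) / 40) ≤ ((z / l : ℕ) : ℝ) + 1 := by
        have h6 : (z : ℝ) + 1 ≤ l * (((z / l : ℕ) : ℝ) + 1) := by
          have : z + 1 ≤ l * (z / l + 1) := by
            have := Nat.lt_mul_div_succ z hlp.pos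
            omega
          exact_mod_cast this
        have h7 : (x : ℝ) ^ ((3 : ℝ) / 40) * (x : ℝ) ^ ((1 : ℝ) / 40) = w := by
          rw [← Real.rpow_add hx0, hw]
          norm_num
        have h8 : 0 < (x : ℝ) ^ ((1 : ℝ) / 40) := Real.rpow_pos_of_pos hx0 _
        have h9 : (x : ℝ) ^ ((3 : ℝ) / 40) * (x : ℝ) ^ ((1 : ℝ) / 40) ≤
            (((z / l : ℕ) : ℝ) + 1) * (x : ℝ) ^ ((1 : ℝ) / 40) := by
          rw [h7]
          calc w ≤ l * (((z / l : ℕ) : ℝ) + 1) := by linarith
            _ = (((z / l : ℕ) : ℝ) + 1) * l := by ring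
            _ ≤ _ := mul_le_mul_of_nonneg_left hlx' (by positivity)
        exact le_of_mul_le_mul_right h9 h8
      have h10 := Real.log_le_log (Real.rpow_pos_of_pos hx0 _) h5
      rw [Real.log_rpow hx0] at h10
      exact h10
  -- the sifted set
  have hsub : S ⊆ (Finset.range (x + 1)).filter (fun n => ∀ l ∈ P, n % l ∉ Om l) := by
    intro p hp
    obtain ⟨hpp, hp1, hp2, hp3⟩ := hS p hp
    rw [Finset.mem_filter, Finset.mem_range]
    refine ⟨by omega, fun l hl hmem => ?_⟩
    have hlp := hPp l hl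
    have hlz : l ≤ z := (Finset.mem_Icc.mp (Finset.mem_filter.mp hl).1).2
    have hwx : w ≤ (x : ℝ) / 2 := by
      have a1 : w ≤ (x : ℝ) ^ ((1 : ℝ) / 2) :=
        Real.rpow_le_rpow_of_exponent_le (by linarith) (by norm_num)
      have a2 : (x : ℝ) ^ ((1 : ℝ) / 2) = Real.sqrt x := (Real.sqrt_eq_rpow _).symm
      have a3 : Real.sqrt x * Real.sqrt x = x := Real.mul_self_sqrt hx0.le
      have a4 : 2 ≤ Real.sqrt x := by
        rw [show (2 : ℝ) = Real.sqrt 4 by
          rw [show (4 : ℝ) = 2 ^ 2 by norm_num, Real.sqrt_sq (by norm_num)]]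
        exact Real.sqrt_le_sqrt hxR
      rw [a2] at a1
      nlinarith
    have hlp' : l < p := by
      have b1 : (l : ℝ) ≤ x / 2 := by
        have : (l : ℝ) ≤ z := by exact_mod_cast hlz
        linarith
      have b2 : (x : ℝ) < 2 * p := by
        have : x < 2 * p := by omega
        exact_mod_cast this
      have : (l : ℝ) < p := by linarith
      exact_mod_cast this
    have h0 : p % l ≠ 0 := by
      intro h
      have h11 := Nat.dvd_of_mod_eq_zero h
      rcases (Nat.dvd_prime hpp).mp h11 with h | h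
      · exact hlp.one_lt.ne' h
      · omega
    simp only [hOm] at hmem
    split_ifs at hmem with h
    · rw [Finset.mem_insert, Finset.mem_singleton] at hmem
      rcases hmem with h' | h'
      · exact h0 h'
      · refine hp3 l h ?_
        have h12 : 1 ≤ p := hpp.pos
        have h13 : p ≡ 1 [MOD l] := by
          unfold Nat.ModEq
          rw [h', Nat.mod_eq_of_lt hlp.one_lt]
        exact (Nat.modEq_iff_dvd' h12).mp h13.symm
    · rw [Finset.mem_singleton] at hmem
      exact h0 hmem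
  have hcard : (S.card : ℝ) ≤
      (((Finset.range (x + 1)).filter (fun n => ∀ l ∈ P, n % l ∉ Om l)).card : ℝ) := by
    exact_mod_cast Finset.card_le_card hsub
  have hsum0 : 0 ≤ ∑ l ∈ N, (1 : ℝ) / l := Finset.sum_nonneg fun _ _ => by positivity
  have hz3 : (z : ℝ) ^ 3 ≤ x := by
    calc (z : ℝ) ^ 3 ≤ w ^ 3 := pow_le_pow_left₀ (by positivity) hzw 3
      _ = (x : ℝ) ^ ((3 : ℝ) / 10) := by
        rw [hw, ← Real.rpow_natCast, ← Real.rpow_mul hx0.le]
        norm_num
      _ ≤ (x : ℝ) ^ (1 : ℝ) := Real.rpow_le_rpow_of_exponent_le (by linarith) (by norm_num)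
      _ = x := Real.rpow_one _
  have hfin : (S.card : ℝ) * ((3 / 40 * Real.log x) * (1 + ∑ l ∈ N, (1 : ℝ) / l)) ≤ 3 * x := by
    refine le_trans (mul_le_mul hcard (hlow.trans hJ) (by positivity) (by positivity)) ?_
    refine hsieve.trans ?_
    push_cast
    linarith
  have : (S.card : ℝ) * (1 + ∑ l ∈ N, (1 : ℝ) / l) * Real.log x ≤ 40 * x := by
    nlinarith
  rw [mul_div_assoc'] 
  rw [le_div_iff₀ hlx]
  exact this

end Pool.Agent.Helper44.TOT
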