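import Pool.Agent.Helper44.TOT.Chain
import Pool.Agent.Helper44.TOT.Small
import Pool.Agent.Helper44.TOT.Dist
import Pool.Agent.Helper44.TOT.U3
import Pool.Agent.Helper26.TOT.SieveIneq
import Pool.Agent.Helper26.TOT.JGe
import Pool.Agent.Helper26.TOT.HPow
import Pool.Agent.Helper26.TOT.HLow
import Pool.Agent.Helper26.TOT.SieveForms
import Pool.Agent.Helper26.TOT.CL0point
import Pool.Agent.Helper91.TOT.S6
import Pool.Agent.Helper41.TOT.TotLow
import Pool.Agent.Helper87.TOT.PS
import Pool.Agent.Helper87.TOT.TypeB1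
import Pool.Agent.Helper95.TOT.BT
import Pool.Agent.Helper95.TOT.FFprops
import Pool.Agent.Helper6.TOT.ExpAvg
import Pool.Agent.Helper6.TOT.Step3
import Pool.Agent.Helper50.TOT.TupleAvg
import Pool.Agent.Helper51.TOT.S14
import Pool.Agent.Helper51.TOT.A1
import Pool.Agent.Helper67.TOT.AdmChain
import Pool.Agent.Helper98.TOT.Induct
import Pool.Agent.Helper98.TOT.LongChain
import Pool.Agent.Helper54.TOT.LM
import Pool.Agent.Helper65.TOT.Smooth
import Pool.Agent.Helper40.TOT.Squares
import Pool.Agent.Helper40.TOT.TypeA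
import Pool.Agent.Helper40.TOT.TheoremP
import Pool.Agent.Helper40.TOT.FvsF
import Pool.Agent.Helper30.TOT.B2a
import Pool.Agent.Helper48.TOT.CaseAn
import Pool.Agent.Helper28.TOT.PerAdm
import Pool.Agent.Helper78.TOT.ParamP
import Pool.Agent.Helper12.TOT.PhaseTwo
import Pool.Agent.Helper59.TOT.FM
import Pool.Agent.Helper82.TOT.N5
import Pool.Agent.Helper83.TOT.GGavg
import Pool.Agent.Helper83.TOT.W1
import Pool.Agent.Helper18.TOT.W2
import Pool.Agent.Helper18.TOT.WW
import Pool.Agent.Helper55.TOT.PrimesClaim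
import Pool.Agent.Helper53.TOT.Main
import Pool.Agent.Helper7.TOT.TypeB2b
import Pool.Agent.Helper9.TOT.CL0
import Pool.Agent.Helper9.TOT.CLC
import Pool.Agent.Helper9.TOT.MomentCL0
import Pool.Agent.Helper39.TOT.OS
import Pool.Agent.Helper42.TOT.PhaseOne
import Pool.Agent.Helper8.TOT.TypeC

/-!
# Erdos problem 408 (iterated totient length), final assembly

All pieces (see `Pool/Agent/Helper44/TOT/Defs.lean` for their statements) are put together here, giving
`main_final : Main` unconditionally.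
-/

set_option autoImplicit false

namespace Pool.Agent.Helper44.TOT.Fin

open Pool.Agent.Helper44.TOT

theorem h_sieveForms : SieveForms :=
  Pool.Agent.Helper26.TOT.sieveForms Pool.Agent.Helper26.TOT.sieveIneq Pool.Agent.Helper26.TOT.jge
    Pool.Agent.Helper26.TOT.hpow Pool.Agent.Helper26.TOT.hlow

theorem h_u3 : U3 := u3 Pool.Agent.Helper26.TOT.sieveIneq Pool.Agent.Helper26.TOT.jge

theorem h_cL0point : CL0point := Pool.Agent.Helper26.TOT.cL0point h_sieveForms

theorem h_totLow : TotLow := Pool.Agent.Helper41.TOT.totLow Pool.Agent.Helper91.TOT.recipPrime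

theorem h_pS : PS := Pool.Agent.Helper87.TOT.pS h_sieveForms h_totLow

theorem h_bt : BT := Pool.Agent.Helper95.TOT.bt h_sieveForms

theorem h_tupleAvg : TupleAvg := Pool.Agent.Helper50.TOT.tupleAvg Pool.Agent.Helper6.TOT.expAvg

theorem h_momentCL0 : MomentCL0 :=
  Pool.Agent.Helper9.TOT.momentCL0 h_cL0point Pool.Agent.Helper51.TOT.classCount h_tupleAvg

theorem h_cl0 : CL0 := Pool.Agent.Helper9.TOT.cl0 holderFF h_momentCL0

theorem h_clc : CLC := Pool.Agent.Helper9.TOT.clc h_pS holderFF chainAlg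

theorem h_admZero : AdmZero := Pool.Agent.Helper51.TOT.admZero h_bt h_cl0 h_clc

theorem h_admChain : AdmChain := Pool.Agent.Helper67.TOT.admChain h_pS h_clc chainAlg

theorem h_longChain : LongChain := Pool.Agent.Helper98.TOT.longChain h_pS chainAlg chainSum

theorem h_smooth : Smooth := Pool.Agent.Helper65.TOT.smooth Pool.Agent.Helper91.TOT.logSum

theorem h_typeA : TypeA := Pool.Agent.Helper40.TOT.typeA Pool.Agent.Helper54.TOT.lM

theorem h_typeB1 : TypeB1 := Pool.Agent.Helper87.TOT.typeB1 Pool.Agent.Helper54.TOT.lM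

theorem h_typeB2a : TypeB2a := Pool.Agent.Helper30.TOT.typeB2a Pool.Agent.Helper54.TOT.lM cover3

theorem h_typeB2b : TypeB2b := Pool.Agent.Helper7.TOT.typeB2b Pool.Agent.Helper54.TOT.lM cover3

theorem h_typeC : TypeC := Pool.Agent.Helper8.TOT.typeC cover3

theorem h_perAdm : PerAdm :=
  Pool.Agent.Helper28.TOT.perAdm h_smooth Pool.Agent.Helper40.TOT.squares h_typeA h_typeB1
    h_typeB2a h_typeB2b h_typeC Pool.Agent.Helper48.TOT.caseAn

theorem h_oS : OS :=
  Pool.Agent.Helper39.TOT.oS h_perAdm h_admZero h_admChain chainDec chainG chainSum chainAlg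
    h_longChain Pool.Agent.Helper91.TOT.cheb

theorem h_phaseOne : PhaseOne := Pool.Agent.Helper42.TOT.phaseOne conv

theorem h_n5 : N5 := Pool.Agent.Helper82.TOT.n5 h_pS h_cl0 Pool.Agent.Helper91.TOT.cheb

theorem h_fM : FM := Pool.Agent.Helper59.TOT.fM h_bt h_n5 Pool.Agent.Helper91.TOT.logSum

theorem h_gGavg : GGavg := Pool.Agent.Helper83.TOT.gGavg Pool.Agent.Helper95.TOT.ffprops

theorem h_w1 : W1 := Pool.Agent.Helper83.TOT.w1 h_fM h_gGavg

theorem h_fvsF : fvsF := Pool.Agent.Helper40.TOT.fvsF_of Pool.Agent.Helper95.TOT.ffprops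

theorem h_induct : Induct :=
  Pool.Agent.Helper98.TOT.induct h_oS Pool.Agent.Helper78.TOT.paramP avgGx h_phaseOne
    (Pool.Agent.Helper12.TOT.phaseTwo conv)

theorem h_theoremP : TheoremP :=
  Pool.Agent.Helper40.TOT.theoremP h_induct

theorem h_claimL : ClaimL :=
  Pool.Agent.Helper6.TOT.claimL h_theoremP h_gGavg

theorem h_w2 : W2 :=
  Pool.Agent.Helper18.TOT.w2 h_claimL h_w1 h_u3

theorem h_ww : WW :=
  Pool.Agent.Helper18.TOT.ww h_fM h_w2 h_gGavg

theorem h_step3 : Step3 :=
  Pool.Agent.Helper6.TOT.step3 h_theoremP h_ww h_gGavg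

theorem h_primesClaim : PrimesClaim :=
  Pool.Agent.Helper55.TOT.primesClaim h_step3 h_gGavg

theorem main_final : Main :=
  Pool.Agent.Helper53.TOT.main h_primesClaim h_fvsF h_gGavg
    Pool.Agent.Helper95.TOT.ffprops

end Pool.Agent.Helper44.TOT.Fin
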